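import Pool.Agent.Lib.MP_95b053_co.Q.Lin

/-!
# Points whose gauges are on an affine line of `ℝ³` are on a line
-/

set_option autoImplicit false

namespace Pool.Agent.QQ95

open Finset

theorem back_rank (x y : ℝ × ℝ) (h : x ≠ y) :
    Module.finrank ℝ (line[ℝ, x, y]).direction = 1 := by
  rw [direction_affineSpan, vectorSpan_pair]
  exact finrank_span_singleton (sub_ne_zero.mpr h)

theorem back_card (P T : Finset (ℝ × ℝ)) (hT : T ⊆ P)
    (L : AffineSubspace ℝ (ℝ × ℝ)) (h : ∀ y ∈ T, y ∈ L) :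
    T.card ≤ ((P : Set (ℝ × ℝ)) ∩ (L : Set (ℝ × ℝ))).ncard := by
  rw [← Set.ncard_coe_finset]
  apply Set.ncard_le_ncard
  · intro y hy
    exact ⟨Finset.mem_coe.2 (hT (Finset.mem_coe.1 hy)), h y (Finset.mem_coe.1 hy)⟩
  · exact (Finset.finite_toSet P).subset Set.inter_subset_left

theorem backQ (P T : Finset (ℝ × ℝ)) (hT : T ⊆ P) (w : ℝ × ℝ → ℝ × ℝ × ℝ)
    (hw : ∀ y ∈ T, Sim (w y) (lf y)) (p v : ℝ × ℝ × ℝ)
    (hl : ∀ y ∈ T, ∃ s : ℝ, w y = p + s • v) :
    ∃ L : AffineSubspace ℝ (ℝ × ℝ), Module.finrank ℝ L.direction = 1 ∧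
      T.card ≤ ((P : Set (ℝ × ℝ)) ∩ (L : Set (ℝ × ℝ))).ncard := by
  by_cases h2 : ∃ y₁ ∈ T, ∃ y₂ ∈ T, y₁ ≠ y₂
  · obtain ⟨y₁, hy₁, y₂, hy₂, hyne⟩ := h2
    refine ⟨line[ℝ, y₁, y₂], back_rank y₁ y₂ hyne, back_card P T hT _ ?_⟩
    intro y hy
    obtain ⟨s, hs⟩ := hl y hy
    obtain ⟨s₁, hs₁⟩ := hl y₁ hy₁
    obtain ⟨s₂, hs₂⟩ := hl y₂ hy₂
    obtain ⟨τ, hτ, e⟩ := hw y hy
    obtain ⟨τ₁, hτ₁, e₁⟩ := hw y₁ hy₁
    obtain ⟨τ₂, hτ₂, e₂⟩ := hw y₂ hy₂
    have hs12 : s₂ - s₁ ≠ 0 := by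
      intro h
      have h3 : w y₁ = w y₂ := by rw [hs₁, hs₂, sub_eq_zero.mp h]
      rw [e₁, e₂] at h3
      have h4 : τ₁ • lf y₁ + (-τ₂) • lf y₂ = 0 := by rw [h3]; module
      exact hτ₁ (lf_indep hyne h4).1
    obtain ⟨u, hu⟩ : ∃ u : ℝ, u = (s - s₁) / (s₂ - s₁) := ⟨_, rfl⟩
    have hqu : τ • lf y = τ₁ • lf y₁ + u • (τ₂ • lf y₂ - τ₁ • lf y₁) := by
      have h3 : τ₂ • lf y₂ - τ₁ • lf y₁ = (s₂ - s₁) • v := by
        rw [← e₁, ← e₂, hs₁, hs₂, sub_smul]; abel
      have h4 : u * (s₂ - s₁) = s - s₁ := by rw [hu]; field_simp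
      rw [h3, smul_smul, h4, ← e, ← e₁, hs, hs₁, sub_smul]
      abel
    have k1 := congrArg (fun z : ℝ × ℝ × ℝ => z.1) hqu
    have k2 := congrArg (fun z : ℝ × ℝ × ℝ => z.2.1) hqu
    have k3 := congrArg (fun z : ℝ × ℝ × ℝ => z.2.2) hqu
    simp only [lf, Prod.fst_add, Prod.snd_add, Prod.smul_fst, Prod.smul_snd, Prod.fst_sub,
      Prod.snd_sub, smul_eq_mul, mul_one] at k1 k2 k3
    have m1 : y.1 = y₁.1 + (u * τ₂ / τ) * (y₂.1 - y₁.1) := by
      field_simp
      linear_combination k1 - y₁.1 * k3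
    have m2 : y.2 = y₁.2 + (u * τ₂ / τ) * (y₂.2 - y₁.2) := by
      field_simp
      linear_combination k2 - y₁.2 * k3
    have m3 : y = AffineMap.lineMap y₁ y₂ (u * τ₂ / τ) := by
      rw [AffineMap.lineMap_apply]
      ext
      · rw [m1]
        simp [add_comm]
      · rw [m2]
        simp [add_comm]
    rw [m3]
    exact AffineMap.lineMap_mem_affineSpan_pair _ _ _
  · push Not at h2
    have hx : ∀ x : ℝ × ℝ, x ≠ x + (1, 0) := by
      intro x h
      have := congrArg Prod.fst h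
      simp at this
    rcases T.eq_empty_or_nonempty with h0 | ⟨y₀, hy₀⟩
    · exact ⟨line[ℝ, (0 : ℝ × ℝ), 0 + (1, 0)], back_rank _ _ (hx 0), by rw [h0]; simp⟩
    · refine ⟨line[ℝ, y₀, y₀ + (1, 0)], back_rank _ _ (hx y₀), back_card P T hT _ ?_⟩
      intro y hy
      rw [h2 y hy y₀ hy₀]
      exact left_mem_affineSpan_pair ℝ _ _

/-- Three different collinear points. -/
theorem col_of_collinear {p q r : ℝ × ℝ} (hpq : p ≠ q) (hpr : p ≠ r) (hqr : q ≠ r)
    (h : Collinear ℝ {p, q, r}) : Col p q r := by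
  rw [collinear_iff_of_mem (p₀ := p) (by simp)] at h
  obtain ⟨v, hv⟩ := h
  obtain ⟨s, hs⟩ := hv q (by simp)
  obtain ⟨t, ht⟩ := hv r (by simp)
  rw [vadd_eq_add] at hs ht
  have hs0 : s ≠ 0 := by
    rintro rfl
    exact hpq (by rw [hs]; simp)
  have ht0 : t ≠ 0 := by
    rintro rfl
    exact hpr (by rw [ht]; simp)
  have hst : t ≠ s := by
    rintro rfl
    exact hqr (by rw [hs, ht])
  refine ⟨hpq, 1 - t / s, t / s, ?_, div_ne_zero ht0 hs0, ?_⟩
  · intro h0
    apply hst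
    have : t / s = 1 := by linarith
    rwa [div_eq_one_iff_eq hs0] at this
  · have e1 := congrArg Prod.fst hs
    have e2 := congrArg Prod.snd hs
    have e3 := congrArg Prod.fst ht
    have e4 := congrArg Prod.snd ht
    simp only [Prod.fst_add, Prod.snd_add, Prod.smul_fst, Prod.smul_snd, smul_eq_mul] at e1 e2 e3 e4
    apply v3ext
    · simp only [lf, Prod.fst_add, Prod.smul_fst, smul_eq_mul]
      rw [e1, e3]
      field_simp
      ring
    · simp only [lf, Prod.fst_add, Prod.snd_add, Prod.smul_fst, Prod.smul_snd, smul_eq_mul]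
      rw [e2, e4]
      field_simp
      ring
    · simp only [lf, Prod.snd_add, Prod.smul_snd, smul_eq_mul]
      ring

theorem dt_of_not_collinear {p q r : ℝ × ℝ} (h : ¬ Collinear ℝ {p, q, r}) :
    dt (lf p) (lf q) (lf r) ≠ 0 := by
  intro h0
  apply h
  have h1 : (q.1 - p.1) * (r.2 - p.2) = (q.2 - p.2) * (r.1 - p.1) := by
    simp only [dt, lf] at h0
    linear_combination h0
  rw [collinear_iff_of_mem (p₀ := p) (by simp)]
  by_cases hq : q = p
  · refine ⟨r - p, ?_⟩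
    intro x hx
    simp only [Set.mem_insert_iff, Set.mem_singleton_iff] at hx
    rcases hx with rfl | rfl | rfl
    · exact ⟨0, by simp⟩
    · exact ⟨0, by simp [hq]⟩
    · exact ⟨1, by simp⟩
  · refine ⟨q - p, ?_⟩
    intro x hx
    simp only [Set.mem_insert_iff, Set.mem_singleton_iff] at hx
    rcases hx with rfl | rfl | rfl
    · exact ⟨0, by simp⟩
    · exact ⟨1, by simp⟩
    · by_cases hq1 : q.1 - p.1 = 0
      · have hq2 : q.2 - p.2 ≠ 0 := by
          intro h2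
          exact hq (Prod.ext (by linarith) (by linarith))
        refine ⟨(x.2 - p.2) / (q.2 - p.2), ?_⟩
        rw [vadd_eq_add]
        apply Prod.ext
        · simp only [Prod.fst_add, Prod.smul_fst, Prod.fst_sub, smul_eq_mul]
          rw [hq1] at h1 ⊢
          have : x.1 - p.1 = 0 := by
            rcases mul_eq_zero.1 (by linarith : (q.2 - p.2) * (x.1 - p.1) = 0) with h3 | h3
            · exact absurd h3 hq2
            · exact h3
          linarith
        · simp only [Prod.snd_add, Prod.smul_snd, Prod.snd_sub, smul_eq_mul]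
          field_simp
          ring
      · refine ⟨(x.1 - p.1) / (q.1 - p.1), ?_⟩
        rw [vadd_eq_add]
        apply Prod.ext
        · simp only [Prod.fst_add, Prod.smul_fst, Prod.fst_sub, smul_eq_mul]
          field_simp
          ring
        · simp only [Prod.snd_add, Prod.smul_snd, Prod.snd_sub, smul_eq_mul]
          field_simp
          linear_combination h1

end Pool.Agent.QQ95
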