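import Pool.Agent.Lib.MP_95b053_co.Q.Grp

/-!
# Few translations: many homotheties with the same centre
-/

set_option autoImplicit false

namespace Pool.Agent.QQ95

open Finset
open scoped Pointwise

theorem one_mem_pow {S : Finset Hg} (h1 : (1 : Hg) ∈ S) (m : ℕ) : (1 : Hg) ∈ S ^ m := by
  induction m with
  | zero => simp
  | succ m ih =>
    rw [pow_succ]
    exact Finset.mem_mul.2 ⟨1, ih, 1, h1, one_mul 1⟩

theorem inv_mem_pow {S : Finset Hg} (hS : ∀ g ∈ S, g⁻¹ ∈ S) (m : ℕ) :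
    ∀ g ∈ S ^ m, g⁻¹ ∈ S ^ m := by
  induction m with
  | zero =>
    intro g hg
    rw [pow_zero, Finset.mem_one] at hg ⊢
    rw [hg, inv_one]
  | succ m ih =>
    intro g hg
    rw [pow_succ] at hg
    obtain ⟨a, ha, b, hb, rfl⟩ := Finset.mem_mul.1 hg
    rw [mul_inv_rev, pow_succ']
    exact Finset.mul_mem_mul (hS b hb) (ih a ha)

theorem mem_pow_add {S : Finset Hg} {a b : Hg} {i j : ℕ} (ha : a ∈ S ^ i) (hb : b ∈ S ^ j) :
    a * b ∈ S ^ (i + j) := by
  rw [pow_add]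
  exact Finset.mul_mem_mul ha hb

theorem pow_mono {S : Finset Hg} (h1 : (1 : Hg) ∈ S) {i j : ℕ} (hij : i ≤ j) :
    S ^ i ⊆ S ^ j := by
  obtain ⟨k, rfl⟩ := Nat.exists_eq_add_of_le hij
  intro a ha
  have := mem_pow_add ha (one_mem_pow h1 k)
  rwa [mul_one] at this

/-- the translations in `S ^ m` -/
noncomputable def trs (S : Finset Hg) (m : ℕ) : Finset Hg := by
  classical exact (S ^ m).filter fun g => g.r = 1

theorem mem_trs {S : Finset Hg} {m : ℕ} {g : Hg} : g ∈ trs S m ↔ g ∈ S ^ m ∧ g.r = 1 := by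
  classical
  unfold trs
  exact Finset.mem_filter

/-- **Case A.** -/
theorem caseA (X S : Finset Hg) (K : ℝ) (hK : 1 ≤ K) (hinj : Set.InjOn Hg.u (X : Set Hg))
    (h1 : (1 : Hg) ∈ S) (hS : ∀ g ∈ S, g⁻¹ ∈ S) (hXS : (X.card : ℝ) ≤ 2 * K * S.card)
    (hgr : ∀ m : ℕ, ((S ^ m * X).card : ℝ) ≤ (2 * K ^ 2) ^ m * X.card)
    (hbig : 2 * K ≤ Real.sqrt X.card) (hfew : ((trs S 4).card : ℝ) < Real.sqrt X.card) :
    ∃ p v : ℝ × ℝ × ℝ, ∃ T ⊆ X, (∀ x ∈ T, ∃ s : ℝ, x.u = p + s • v) ∧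
      Real.sqrt X.card ≤ 16 * K ^ 5 * T.card := by
  classical
  set m : ℝ := Real.sqrt X.card with hm
  have hm2 : m * m = X.card := Real.mul_self_sqrt (Nat.cast_nonneg _)
  have hm0 : 0 < m := by linarith
  have hX4 : (4 : ℝ) ≤ X.card := by rw [← hm2]; nlinarith
  -- a homothety which is not a translation
  obtain ⟨y1, hy1, hy1r⟩ : ∃ y1 ∈ S, y1.r ≠ 1 := by
    by_contra hcon
    push Not at hcon
    have hsub : S ⊆ trs S 4 := by
      intro g hg
      refine mem_trs.2 ⟨?_, hcon g hg⟩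
      have := pow_mono h1 (show 1 ≤ 4 by norm_num)
      rw [pow_one] at this
      exact this hg
    have h2 : (S.card : ℝ) ≤ (trs S 4).card := by exact_mod_cast Finset.card_le_card hsub
    have h3 : (S.card : ℝ) < m := lt_of_le_of_lt h2 hfew
    have h4 : m * m < 2 * K * m := by
      rw [hm2]
      calc (X.card : ℝ) ≤ 2 * K * S.card := hXS
        _ < 2 * K * m := mul_lt_mul_of_pos_left h3 (by linarith)
    have h5 : m < 2 * K := lt_of_mul_lt_mul_right h4 hm0.le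
    linarith
  obtain ⟨z, hz, hzu⟩ := Hg.exists_fix hy1r
  -- commutators
  set φ : Hg → Hg := fun y => y1 * y * y1⁻¹ * y⁻¹ with hφ
  have hφm : ∀ y ∈ S, φ y ∈ trs S 4 := by
    intro y hy
    refine mem_trs.2 ⟨?_, ?_⟩
    · have e : S ^ 4 = S * S * S * S := by
        rw [pow_succ, pow_succ, pow_succ, pow_one]
      rw [e]
      exact Finset.mul_mem_mul (Finset.mul_mem_mul (Finset.mul_mem_mul hy1 hy) (hS _ hy1))
        (hS _ hy)
    · simp only [hφ, Hg.mul_r, Hg.inv_r]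
      rw [mul_comm y1.r y.r, mul_assoc y.r, mul_inv_cancel, mul_one, mul_inv_cancel]
  have hSne : S.Nonempty := ⟨1, h1⟩
  obtain ⟨u0, _, hu0⟩ := pigeon S φ (trs S 4) hφm ⟨_, hφm _ h1⟩
  set F := S.filter fun s => φ s = u0 with hF
  have hFpos : F.Nonempty := by
    rw [Finset.nonempty_iff_ne_empty]
    intro h
    rw [h] at hu0
    simp only [Finset.card_empty, mul_zero, Nat.le_zero, Finset.card_eq_zero] at hu0
    rw [hu0] at hSne
    exact Finset.not_nonempty_empty hSne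
  obtain ⟨f0, hf0⟩ := hFpos
  have hf0' := Finset.mem_filter.1 hf0
  have hFcard : m ≤ 2 * K * F.card := by
    have h2 : (S.card : ℝ) ≤ (trs S 4).card * F.card := by exact_mod_cast hu0
    have h3 : m * m ≤ 2 * K * (m * F.card) := by
      rw [hm2]
      refine hXS.trans (mul_le_mul_of_nonneg_left (h2.trans ?_) (by linarith))
      exact mul_le_mul_of_nonneg_right hfew.le (Nat.cast_nonneg _)
    have h4 : m * m ≤ (2 * K * F.card) * m := by linarith
    exact le_of_mul_le_mul_right h4 hm0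
  set Q := F.image fun f => f0⁻¹ * f with hQ
  have hQcard : Q.card = F.card := by
    rw [hQ]
    apply Finset.card_image_of_injective
    intro a b h
    exact mul_left_cancel h
  have hQfix : ∀ d ∈ Q, Hg.ap d z = z := by
    intro d hd
    obtain ⟨f, hf, rfl⟩ := Finset.mem_image.1 hd
    have hf' := (Finset.mem_filter.1 hf).2
    have hcomm : y1 * (f0⁻¹ * f) = (f0⁻¹ * f) * y1 := by
      have h5 : y1 * f0 * y1⁻¹ * f0⁻¹ = y1 * f * y1⁻¹ * f⁻¹ := by
        have := hf0'.2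
        simp only [hφ] at this hf'
        rw [this, hf']
      have h6 : f0 * y1⁻¹ * f0⁻¹ = f * y1⁻¹ * f⁻¹ := by
        have h7 : y1 * (f0 * y1⁻¹ * f0⁻¹) = y1 * (f * y1⁻¹ * f⁻¹) := by
          simpa only [mul_assoc] using h5
        exact mul_left_cancel h7
      have h8 : y1⁻¹ * (f0⁻¹ * f) = (f0⁻¹ * f) * y1⁻¹ := by
        calc y1⁻¹ * (f0⁻¹ * f) = f0⁻¹ * (f0 * y1⁻¹ * f0⁻¹) * f := by group
          _ = f0⁻¹ * (f * y1⁻¹ * f⁻¹) * f := by rw [h6]
          _ = (f0⁻¹ * f) * y1⁻¹ := by group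
      calc y1 * (f0⁻¹ * f) = y1 * ((f0⁻¹ * f) * y1⁻¹) * y1 := by group
        _ = y1 * (y1⁻¹ * (f0⁻¹ * f)) * y1 := by rw [h8]
        _ = (f0⁻¹ * f) * y1 := by group
    apply hzu
    rw [← Hg.ap_mul, hcomm, Hg.ap_mul, hz]
  -- the points different from `z`
  set V' := X.filter fun x => x.u ≠ z with hV'
  have hVX : V' ⊆ X := Finset.filter_subset _ _
  have hVcard : X.card ≤ V'.card + 1 := by
    have h5 : (X.filter fun x => ¬ (x.u ≠ z)).card ≤ 1 := by
      rw [Finset.card_le_one]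
      intro a ha b hb
      obtain ⟨h6, h7⟩ := Finset.mem_filter.1 ha
      obtain ⟨h8, h9⟩ := Finset.mem_filter.1 hb
      push Not at h7 h9
      exact hinj (Finset.mem_coe.2 h6) (Finset.mem_coe.2 h8) (by rw [h7, h9])
    have h6 : V'.card + (X.filter fun x => ¬ (x.u ≠ z)).card = X.card :=
      Finset.card_filter_add_card_filter_not _
    omega
  have hX4' : 4 ≤ X.card := by exact_mod_cast hX4
  have hVne : V'.Nonempty := by
    rw [← Finset.card_pos]
    omega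
  obtain ⟨w, hw⟩ := pre Q V' X (S ^ 2 * X) ((2 * K ^ 2) ^ 2) hVX hVne (by
    intro d hd x hx
    apply Finset.mul_mem_mul _ hx
    obtain ⟨f, hf, rfl⟩ := Finset.mem_image.1 hd
    rw [sq]
    exact Finset.mul_mem_mul (hS _ hf0'.1) (Finset.mem_filter.1 hf).1) (hgr 2) (by omega)
  set N := (Q ×ˢ V').filter fun p => (p.1 * p.2).u = w with hN
  have hNd : ∀ p ∈ N, p.1 ∈ Q ∧ p.2 ∈ X ∧ p.2.u ≠ z ∧ Hg.ap p.1 p.2.u = w := by
    intro p hp
    obtain ⟨h5, h6⟩ := Finset.mem_filter.1 hp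
    obtain ⟨h7, h8⟩ := Finset.mem_product.1 h5
    obtain ⟨h9, h10⟩ := Finset.mem_filter.1 h8
    exact ⟨h7, h9, h10, by rw [Hg.ap_u, h6]⟩
  refine ⟨z, w - z, N.image fun p => p.2, ?_, ?_, ?_⟩
  · intro x hx
    obtain ⟨p, hp, rfl⟩ := Finset.mem_image.1 hx
    exact (hNd p hp).2.1
  · intro x hx
    obtain ⟨p, hp, rfl⟩ := Finset.mem_image.1 hx
    obtain ⟨h5, _, _, h6⟩ := hNd p hp
    have h7 := hQfix p.1 h5
    have hr : ((p.1).r : ℝ) ≠ 0 := Units.ne_zero _
    have h8 : ((p.1).r : ℝ) • (p.2.u - z) = w - z := by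
      have h9 : w - z = Hg.ap p.1 p.2.u - Hg.ap p.1 z := by rw [h6, h7]
      rw [h9]
      unfold Hg.ap
      module
    refine ⟨((p.1).r : ℝ)⁻¹, ?_⟩
    rw [← h8, smul_smul, inv_mul_cancel₀ hr, one_smul]
    abel
  · have hinj2 : Set.InjOn (fun p : Hg × Hg => p.2) (N : Set (Hg × Hg)) := by
      intro p hp q hq he
      simp only at he
      obtain ⟨h5, _, h6, h7⟩ := hNd p (Finset.mem_coe.1 hp)
      obtain ⟨h8, _, h9, h10⟩ := hNd q (Finset.mem_coe.1 hq)
      have h11 : q.1⁻¹ * p.1 = 1 := by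
        apply Hg.eq_one_of_fix h6
        · rw [Hg.ap_mul, h7, ← h10, he, Hg.ap_inv]
        · rw [Hg.ap_mul, hQfix _ h5]
          have := Hg.ap_inv q.1 z
          rwa [hQfix _ h8] at this
      have h12 : p.1 = q.1 := by
        have := congrArg (fun g => q.1 * g) h11
        simpa using this
      exact Prod.ext h12 he
    rw [Finset.card_image_of_injOn hinj2]
    rw [hQcard] at hw
    calc m ≤ 2 * K * F.card := hFcard
      _ ≤ 2 * K * (2 * (2 * K ^ 2) ^ 2 * N.card) :=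
          mul_le_mul_of_nonneg_left hw (by linarith)
      _ = 16 * K ^ 5 * N.card := by ring

end Pool.Agent.QQ95
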