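import Pool.Agent.Lib.MP_95b053_co.Q.CaseA
import Pool.Agent.Lib.MP_95b053_co.Spec

/-!
# Many translations: a long progression
-/

set_option autoImplicit false

namespace Pool.Agent.QQ95

open Finset
open scoped Pointwise

/-- the translation by `v` -/
def tr (v : ℝ × ℝ × ℝ) : Hg := ⟨1, v⟩

theorem trs_eight (X S : Finset Hg) (K : ℝ) (hK : 1 ≤ K) (hXne : X.Nonempty)
    (h1 : (1 : Hg) ∈ S) (hS : ∀ g ∈ S, g⁻¹ ∈ S) (hXS : (X.card : ℝ) ≤ 2 * K * S.card)
    (hgr : ∀ m : ℕ, ((S ^ m * X).card : ℝ) ≤ (2 * K ^ 2) ^ m * X.card) :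
    ((trs S 8).card : ℝ) ≤ 2 * K * (2 * K ^ 2) ^ 9 * (trs S 4).card := by
  classical
  have hfib : ∀ g ∈ S ^ 9, (((trs S 8) ×ˢ S).filter fun p => p.1 * p.2 = g).card ≤
      (trs S 4).card := by
    intro g _
    rcases (((trs S 8) ×ˢ S).filter fun p => p.1 * p.2 = g).eq_empty_or_nonempty with h | ⟨p0, hp0⟩
    · rw [h]
      simp
    · obtain ⟨h2, h3⟩ := Finset.mem_filter.1 hp0
      obtain ⟨h4, h5⟩ := Finset.mem_product.1 h2
      apply Finset.card_le_card_of_injOn (fun p : Hg × Hg => p.2 * p0.2⁻¹)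
      · intro p hp
        obtain ⟨h6, h7⟩ := Finset.mem_filter.1 (Finset.mem_coe.1 hp)
        obtain ⟨h8, h9⟩ := Finset.mem_product.1 h6
        refine Finset.mem_coe.2 (mem_trs.2 ⟨?_, ?_⟩)
        · apply pow_mono h1 (show 2 ≤ 4 by norm_num)
          rw [sq]
          exact Finset.mul_mem_mul h9 (hS _ h5)
        · have e1 : p.2 = p.1⁻¹ * g := by rw [← h7]; group
          have e2 : p0.2 = p0.1⁻¹ * g := by rw [← h3]; group
          change (p.2 * p0.2⁻¹).r = 1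
          rw [e1, e2]
          simp only [Hg.mul_r, Hg.inv_r]
          rw [(mem_trs.1 h8).2, (mem_trs.1 h4).2]
          simp
      · intro p hp q hq he
        obtain ⟨_, h7⟩ := Finset.mem_filter.1 (Finset.mem_coe.1 hp)
        obtain ⟨_, h8⟩ := Finset.mem_filter.1 (Finset.mem_coe.1 hq)
        simp only at he
        have h9 : p.2 = q.2 := mul_right_cancel he
        refine Prod.ext ?_ h9
        rw [← h8, h9] at h7
        exact mul_right_cancel h7
  have hcard : ((trs S 8).card : ℝ) * S.card ≤ ((S ^ 9).card : ℝ) * (trs S 4).card := by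
    have h2 : ((trs S 8) ×ˢ S).card ≤ (S ^ 9).card * (trs S 4).card := by
      calc ((trs S 8) ×ˢ S).card =
          ∑ g ∈ S ^ 9, (((trs S 8) ×ˢ S).filter fun p => p.1 * p.2 = g).card := by
            apply Finset.card_eq_sum_card_fiberwise
            intro p hp
            obtain ⟨h8, h9⟩ := Finset.mem_product.1 (Finset.mem_coe.1 hp)
            apply Finset.mem_coe.2
            have : S ^ 9 = S ^ 8 * S := pow_succ S 8
            rw [this]
            exact Finset.mul_mem_mul (mem_trs.1 h8).1 h9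
        _ ≤ ∑ g ∈ S ^ 9, (trs S 4).card := Finset.sum_le_sum hfib
        _ = (S ^ 9).card * (trs S 4).card := by rw [Finset.sum_const, smul_eq_mul]
    rw [Finset.card_product] at h2
    exact_mod_cast h2
  have hS9 : ((S ^ 9).card : ℝ) ≤ (2 * K ^ 2) ^ 9 * X.card := by
    refine le_trans ?_ (hgr 9)
    exact_mod_cast Finset.card_le_card_mul_right hXne
  have hSpos : (0 : ℝ) < S.card := by
    have : 0 < S.card := Finset.card_pos.2 ⟨1, h1⟩
    exact_mod_cast this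
  have h3 : ((trs S 8).card : ℝ) * S.card ≤
      (2 * K * (2 * K ^ 2) ^ 9 * (trs S 4).card) * S.card := by
    have h0 : (0 : ℝ) ≤ (trs S 4).card := Nat.cast_nonneg _
    calc ((trs S 8).card : ℝ) * S.card ≤ ((S ^ 9).card : ℝ) * (trs S 4).card := hcard
      _ ≤ ((2 * K ^ 2) ^ 9 * X.card) * (trs S 4).card := mul_le_mul_of_nonneg_right hS9 h0
      _ ≤ ((2 * K ^ 2) ^ 9 * (2 * K * S.card)) * (trs S 4).card := by
          apply mul_le_mul_of_nonneg_right _ h0
          exact mul_le_mul_of_nonneg_left hXS (by positivity)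
      _ = (2 * K * (2 * K ^ 2) ^ 9 * (trs S 4).card) * S.card := by ring
  exact le_of_mul_le_mul_right h3 hSpos

/-- **Case B.** -/
theorem caseB (hAP : Pool.Agent.RR95.S_AP) (X S : Finset Hg) (K : ℝ) (hK : 1 ≤ K)
    (hXne : X.Nonempty)
    (h1 : (1 : Hg) ∈ S) (hS : ∀ g ∈ S, g⁻¹ ∈ S) (hXS : (X.card : ℝ) ≤ 2 * K * S.card)
    (hgr : ∀ m : ℕ, ((S ^ m * X).card : ℝ) ≤ (2 * K ^ 2) ^ m * X.card)
    (L ρ : ℕ) (hρ : 5408 * (2 * K * (2 * K ^ 2) ^ 9) ^ 24 ≤ ρ) (hL : 1 ≤ L)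
    (hmany : (4 * L) ^ ρ ≤ (trs S 4).card) :
    ∃ p v : ℝ × ℝ × ℝ, ∃ T ⊆ X, (∀ x ∈ T, ∃ s : ℝ, x.u = p + s • v) ∧
      (2 * L + 1 : ℝ) ≤ 2 * (2 * K ^ 2) ^ 16 * T.card := by
  classical
  set U := (trs S 4).image Hg.u with hU
  have hUinj : Set.InjOn Hg.u ((trs S 4 : Finset Hg) : Set Hg) := by
    intro a ha b hb h
    exact Hg.ext (by rw [(mem_trs.1 (Finset.mem_coe.1 ha)).2, (mem_trs.1 (Finset.mem_coe.1 hb)).2])
      h
  have hUcard : U.card = (trs S 4).card := Finset.card_image_of_injOn hUinj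
  have hUne : U.Nonempty := by
    rw [← Finset.card_pos, hUcard]
    exact Finset.card_pos.2 ⟨1, mem_trs.2 ⟨one_mem_pow h1 4, rfl⟩⟩
  have hUd : ∀ u ∈ U, tr u ∈ S ^ 4 := by
    intro u hu
    obtain ⟨g, hg, rfl⟩ := Finset.mem_image.1 hu
    have h2 := mem_trs.1 hg
    have : tr g.u = g := Hg.ext h2.2.symm rfl
    rw [this]
    exact h2.1
  have hdiff : ((U - U).card : ℝ) ≤ (2 * K * (2 * K ^ 2) ^ 9) * U.card := by
    have hsub : U - U ⊆ (trs S 8).image Hg.u := by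
      intro w hw
      obtain ⟨a, ha, b, hb, rfl⟩ := Finset.mem_sub.1 hw
      refine Finset.mem_image.2 ⟨tr a * (tr b)⁻¹, mem_trs.2 ⟨?_, ?_⟩, ?_⟩
      · exact mem_pow_add (hUd a ha) (inv_mem_pow hS 4 _ (hUd b hb))
      · rw [Hg.mul_r, Hg.inv_r]
        simp [tr]
      · rw [Hg.mul_u_of_one (by rfl), Hg.inv_u_of_one (by rfl)]
        simp only [tr]
        abel
    calc ((U - U).card : ℝ) ≤ ((trs S 8).image Hg.u).card := by
          exact_mod_cast Finset.card_le_card hsub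
      _ ≤ (trs S 8).card := by exact_mod_cast Finset.card_image_le
      _ ≤ 2 * K * (2 * K ^ 2) ^ 9 * (trs S 4).card :=
          trs_eight X S K hK hXne h1 hS hXS hgr
      _ = (2 * K * (2 * K ^ 2) ^ 9) * U.card := by rw [hUcard]
  obtain ⟨v, hv0, hv⟩ := hAP U (2 * K * (2 * K ^ 2) ^ 9) L ρ hUne hdiff hρ hL
    (by rw [hUcard]; exact hmany)
  set Q := (Finset.Icc (-(L : ℤ)) L).image fun j : ℤ => tr ((j : ℝ) • v) with hQ
  have hjinj : ∀ i j : ℤ, (i : ℝ) • v = (j : ℝ) • v → i = j := by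
    intro i j h
    have h2 : ((i : ℝ) - j) • v = 0 := by rw [sub_smul, h, sub_self]
    have h3 := (smul_eq_zero.1 h2).resolve_right hv0
    have h4 : (i : ℝ) = j := by linarith
    exact_mod_cast h4
  have hQcard : Q.card = 2 * L + 1 := by
    rw [hQ, Finset.card_image_of_injective]
    · rw [Int.card_Icc]
      omega
    · intro i j h
      exact hjinj i j (congrArg Hg.u h)
  have hQS : ∀ d ∈ Q, d ∈ S ^ 16 := by
    intro d hd
    obtain ⟨j, hj, rfl⟩ := Finset.mem_image.1 hd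
    obtain ⟨a, ha, b, hb, c, hc, e, he, h⟩ := hv j (by
      rw [Finset.mem_Icc] at hj
      exact abs_le.2 hj)
    have h2 : tr ((j : ℝ) • v) = (tr a * tr b) * ((tr c)⁻¹ * (tr e)⁻¹) := by
      apply Hg.ext
      · simp [tr, Hg.mul_r, Hg.inv_r]
      · rw [Hg.mul_u_of_one (by simp [tr, Hg.mul_r]), Hg.mul_u_of_one (by rfl),
          Hg.mul_u_of_one (by simp [tr, Hg.inv_r]), Hg.inv_u_of_one (by rfl),
          Hg.inv_u_of_one (by rfl)]
        simp only [tr]
        rw [h]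
        abel
    rw [h2]
    exact mem_pow_add (i := 8) (j := 8) (mem_pow_add (hUd a ha) (hUd b hb))
      (mem_pow_add (inv_mem_pow hS 4 _ (hUd c hc)) (inv_mem_pow hS 4 _ (hUd e he)))
  obtain ⟨w, hw⟩ := pre Q X X (S ^ 16 * X) ((2 * K ^ 2) ^ 16) (Finset.Subset.refl _) hXne
    (fun d hd x hx => Finset.mul_mem_mul (hQS d hd) hx) (hgr 16) (by omega)
  set N := (Q ×ˢ X).filter fun p => (p.1 * p.2).u = w with hN
  have hNd : ∀ p ∈ N, ∃ j : ℤ, p.1 = tr ((j : ℝ) • v) ∧ p.2 ∈ X ∧ (j : ℝ) • v + p.2.u = w := by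
    intro p hp
    obtain ⟨h5, h6⟩ := Finset.mem_filter.1 hp
    obtain ⟨h7, h8⟩ := Finset.mem_product.1 h5
    obtain ⟨j, _, hj⟩ := Finset.mem_image.1 h7
    refine ⟨j, hj.symm, h8, ?_⟩
    rw [← h6, ← hj, Hg.mul_u_of_one (by rfl)]
    rfl
  refine ⟨w, v, N.image fun p => p.2, ?_, ?_, ?_⟩
  · intro x hx
    obtain ⟨p, hp, rfl⟩ := Finset.mem_image.1 hx
    obtain ⟨_, _, h, _⟩ := hNd p hp
    exact h
  · intro x hx
    obtain ⟨p, hp, rfl⟩ := Finset.mem_image.1 hx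
    obtain ⟨j, _, _, h⟩ := hNd p hp
    refine ⟨-(j : ℝ), ?_⟩
    rw [← h]
    module
  · have hinj2 : Set.InjOn (fun p : Hg × Hg => p.2) (N : Set (Hg × Hg)) := by
      intro p hp q hq he
      simp only at he
      obtain ⟨i, h5, _, h6⟩ := hNd p (Finset.mem_coe.1 hp)
      obtain ⟨j, h7, _, h8⟩ := hNd q (Finset.mem_coe.1 hq)
      refine Prod.ext ?_ he
      rw [h5, h7]
      have h9 : (i : ℝ) • v = (j : ℝ) • v := by
        rw [← h8, he] at h6
        exact add_right_cancel h6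
      rw [h9]
    rw [Finset.card_image_of_injOn hinj2]
    rw [hQcard] at hw
    push_cast at hw
    exact hw

end Pool.Agent.QQ95
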