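import Pool.Agent.Lib.MP_95b053_co.Q.CaseB

/-!
# The dichotomy, in numbers
-/

set_option autoImplicit false

namespace Pool.Agent.QQ95

open Finset
open scoped Pointwise

theorem claim_m (m K5 X : ℝ) (ρ : ℕ) (hρ : 1 ≤ ρ) (hK : 1 ≤ K5) (hX : 1 ≤ X)
    (h : ∀ L : ℕ, 1 ≤ L → ((4 * L : ℕ) : ℝ) ^ ρ ≤ m → (2 * L + 1 : ℝ) ≤ K5 * X) :
    m ≤ (4 * K5 * X) ^ ρ := by
  have hKX : 1 ≤ K5 * X := one_le_mul_of_one_le_of_one_le hK hX
  rcases lt_or_ge m ((4 : ℝ) ^ ρ) with hm | hm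
  · refine hm.le.trans (pow_le_pow_left₀ (by norm_num) ?_ ρ)
    nlinarith
  · have hm0 : (0 : ℝ) ≤ m := le_trans (by positivity) hm
    have hρ0 : (ρ : ℝ) ≠ 0 := by
      have : ρ ≠ 0 := by omega
      exact_mod_cast this
    obtain ⟨y, hy0, hy⟩ : ∃ y : ℝ, 0 ≤ y ∧ y ^ ρ = m := by
      refine ⟨m ^ ((ρ : ℝ)⁻¹), by positivity, ?_⟩
      exact Real.rpow_inv_natCast_pow hm0 (by omega)
    have hy4 : 4 ≤ y := by
      by_contra hlt
      push Not at hlt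
      have := pow_lt_pow_left₀ hlt hy0 (by omega : ρ ≠ 0)
      linarith
    have hL1 : 1 ≤ ⌊y / 4⌋₊ := by
      rw [Nat.one_le_floor_iff]
      linarith
    have hfl : (⌊y / 4⌋₊ : ℝ) ≤ y / 4 := Nat.floor_le (by linarith)
    have hfl2 : y / 4 < (⌊y / 4⌋₊ : ℝ) + 1 := Nat.lt_floor_add_one _
    have h4L : ((4 * ⌊y / 4⌋₊ : ℕ) : ℝ) ≤ y := by
      push_cast
      linarith
    have hpow : ((4 * ⌊y / 4⌋₊ : ℕ) : ℝ) ^ ρ ≤ m := by
      rw [← hy]
      exact pow_le_pow_left₀ (by positivity) h4L ρ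
    have hh := h _ hL1 hpow
    rw [← hy]
    refine pow_le_pow_left₀ hy0 ?_ ρ
    linarith

/-- A set of homotheties with few quotients: many of the images of `0` are collinear. -/
theorem dich (hAP : Pool.Agent.RR95.S_AP) (X : Finset Hg) (K r : ℝ) (ρ : ℕ)
    (hXne : X.Nonempty) (hK1 : 1 ≤ K) (hr : 1 ≤ r) (hinj : Set.InjOn Hg.u (X : Set Hg))
    (hK : ((X⁻¹ * X).card : ℝ) ≤ K * X.card)
    (hρ : 5408 * (2 * K * (2 * K ^ 2) ^ 9) ^ 24 ≤ ρ)
    (hline : ∀ (p v : ℝ × ℝ × ℝ), ∀ T ⊆ X, (∀ x ∈ T, ∃ s : ℝ, x.u = p + s • v) →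
      (T.card : ℝ) ≤ r) :
    Real.sqrt X.card ≤ (8 * (2 * K ^ 2) ^ 16 * r) ^ ρ := by
  have hρ1 : 1 ≤ ρ := by
    have h1 : (1 : ℝ) ≤ (2 * K * (2 * K ^ 2) ^ 9) ^ 24 := by
      apply one_le_pow₀
      have h2 : (1 : ℝ) ≤ (2 * K ^ 2) ^ 9 := one_le_pow₀ (by nlinarith)
      nlinarith
    have h3 : (1 : ℝ) ≤ (ρ : ℝ) := by linarith
    exact_mod_cast h3
  have hK2 : (1 : ℝ) ≤ K ^ 2 := one_le_pow₀ hK1
  have hK16 : (1 : ℝ) ≤ (2 * K ^ 2) ^ 16 := one_le_pow₀ (by nlinarith)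
  have hbase : (1 : ℝ) ≤ 8 * (2 * K ^ 2) ^ 16 * r := by nlinarith
  have hself : 8 * (2 * K ^ 2) ^ 16 * r ≤ (8 * (2 * K ^ 2) ^ 16 * r) ^ ρ :=
    le_self_pow₀ hbase (by omega)
  rcases lt_or_ge (Real.sqrt X.card) (2 * K) with hsm | hbig
  · refine le_trans (le_of_lt hsm) (le_trans ?_ hself)
    have h1 : K ≤ (2 * K ^ 2) ^ 16 := by
      calc K ≤ K ^ 32 := le_self_pow₀ hK1 (by norm_num)
        _ = (K ^ 2) ^ 16 := by rw [← pow_mul]
        _ ≤ (2 * K ^ 2) ^ 16 := pow_le_pow_left₀ (by positivity) (by nlinarith) 16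
    have h2 : 8 * K * 1 ≤ 8 * (2 * K ^ 2) ^ 16 * r :=
      mul_le_mul (by linarith) hr (by norm_num) (by positivity)
    linarith
  · obtain ⟨S, h1, hS, hXS, hgr⟩ := popq X K hXne hK
    rcases lt_or_ge ((trs S 4).card : ℝ) (Real.sqrt X.card) with hfew | hmany
    · obtain ⟨p, v, T, hT, hTl, hTc⟩ := caseA X S K hK1 hinj h1 hS hXS hgr hbig hfew
      have hTr := hline p v T hT hTl
      refine hTc.trans (le_trans ?_ hself)
      have h3 : 16 * K ^ 5 ≤ 8 * (2 * K ^ 2) ^ 16 := by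
        have h4 : K ^ 5 ≤ K ^ 32 := pow_le_pow_right₀ hK1 (by norm_num)
        have h5 : (2 * K ^ 2) ^ 16 = 65536 * K ^ 32 := by
          rw [mul_pow, ← pow_mul]
          norm_num
        rw [h5]
        have h6 : (0 : ℝ) ≤ K ^ 32 := by positivity
        linarith
      exact mul_le_mul h3 hTr (Nat.cast_nonneg _) (by positivity)
    · have := claim_m (Real.sqrt X.card) (2 * (2 * K ^ 2) ^ 16) r ρ hρ1 (by linarith) hr (by
        intro L hL hLm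
        have hm : (4 * L) ^ ρ ≤ (trs S 4).card := by
          have h5 : (((4 * L) ^ ρ : ℕ) : ℝ) ≤ ((trs S 4).card : ℝ) := by
            rw [Nat.cast_pow]
            exact hLm.trans hmany
          exact_mod_cast h5
        obtain ⟨p, v, T, hT, hTl, hTc⟩ :=
          caseB hAP X S K hK1 hXne h1 hS hXS hgr L ρ hρ hL hm
        refine hTc.trans (mul_le_mul_of_nonneg_left (hline p v T hT hTl) (by positivity)))
      refine this.trans (le_of_eq ?_)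
      ring

end Pool.Agent.QQ95
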