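import Pool.Agent.Lib.MP_95b053_co.Q.Mid
import Pool.Agent.Lib.MP_95b053_co.Two
import Pool.Agent.Lib.MP_95b053_co.Spec
import Pool.Agent.Lib.MP_95b053_co.Fun
import Pool.Agent.Lib.MP_95b053_co.Circ
import Pool.Agent.Lib.MP_95b053_co.Bog
import Pool.Agent.Lib.MP_95b053_co.Dir
import Pool.Agent.Lib.MP_95b053_co.Pos
import Pool.Agent.Lib.MP_95b053_co.BohrAP
import Pool.Agent.Lib.MP_95b053_co.Thick
import Pool.Agent.Lib.MP_95b053_co.Core0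
import Pool.Agent.Lib.MP_95b053_co.AP

/-!
# Complete quadrilaterals: picks, numbers, and the theorem
-/

set_option autoImplicit false

namespace Pool.Agent.QQ95

open Finset

theorem tri_ne {t : Finset (ℝ × ℝ)} {p q r : ℝ × ℝ} (h : t = {p, q, r}) (hc : t.card = 3) :
    p ≠ q ∧ p ≠ r ∧ q ≠ r := by
  classical
  rw [h] at hc
  refine ⟨?_, ?_, ?_⟩
  · rintro rfl
    have : ({p, p, r} : Finset (ℝ × ℝ)).card ≤ 2 := by
      rw [Finset.insert_eq_of_mem (by simp)]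
      exact Finset.card_le_two
    omega
  · rintro rfl
    have : ({p, q, p} : Finset (ℝ × ℝ)).card ≤ 2 := by
      rw [Finset.insert_eq_of_mem (by simp)]
      exact Finset.card_le_two
    omega
  · rintro rfl
    have : ({p, q, q} : Finset (ℝ × ℝ)).card ≤ 2 := by
      rw [Finset.pair_eq_singleton]
      exact Finset.card_le_two
    omega

/-- One pick. -/
theorem pick1 (T : Finset (Finset (ℝ × ℝ))) (k : ℕ) (hT : ∀ t ∈ T, t.card = 3)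
    (hk : ∀ p q : ℝ × ℝ, p ≠ q → (T.filter fun t => p ∈ t ∧ q ∈ t).card ≤ k)
    (Θ : Finset (Fin 6 → ℝ × ℝ)) (i j l : Fin 6)
    (h : ∀ q ∈ Θ, ({q i, q j, q l} : Finset (ℝ × ℝ)) ∈ T) :
    ∃ Θ' ⊆ Θ, Θ.card ≤ k * Θ'.card ∧
      ∀ t ∈ Θ', ∀ t' ∈ Θ', t i = t' i → t j = t' j → t l = t' l := by
  classical
  have hdist : ∀ q ∈ Θ, q i ≠ q j ∧ q i ≠ q l ∧ q j ≠ q l :=
    fun q hq => tri_ne rfl (hT _ (h q hq))
  obtain ⟨Θ', hsub, hcard, hf⟩ := pick Θ (fun t => (t i, t j)) (fun t => t l) k (by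
    intro θ hθ
    refine le_trans ?_ (hk (θ i) (θ j) (hdist θ hθ).1)
    apply Finset.card_le_card_of_injOn (fun v => ({θ i, θ j, v} : Finset (ℝ × ℝ)))
    · intro v hv
      obtain ⟨t, ht, rfl⟩ := Finset.mem_image.1 (Finset.mem_coe.1 hv)
      obtain ⟨ht, he⟩ := Finset.mem_filter.1 ht
      simp only [Prod.mk.injEq] at he
      refine Finset.mem_coe.2 (Finset.mem_filter.2 ⟨?_, ?_, ?_⟩)
      · have := h t ht
        rw [he.1, he.2] at this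
        exact this
      · simp
      · simp
    · intro v hv v' hv' he
      change ({θ i, θ j, v} : Finset (ℝ × ℝ)) = {θ i, θ j, v'} at he
      obtain ⟨t, ht, rfl⟩ := Finset.mem_image.1 (Finset.mem_coe.1 hv)
      obtain ⟨ht, hte⟩ := Finset.mem_filter.1 ht
      simp only [Prod.mk.injEq] at hte
      have hd := hdist t ht
      rw [hte.1, hte.2] at hd
      have h1 : t l ∈ ({θ i, θ j, v'} : Finset (ℝ × ℝ)) := by
        rw [← he]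
        simp
      simp only [Finset.mem_insert, Finset.mem_singleton] at h1
      rcases h1 with h1 | h1 | h1
      · exact absurd h1.symm hd.2.1
      · exact absurd h1.symm hd.2.2
      · exact h1)
  exact ⟨Θ', hsub, hcard, fun t ht t' ht' h1 h2 => hf t ht t' ht' (by rw [h1, h2])⟩

/-- the complete quadrilaterals with lines in `T` -/
def Quad (T : Finset (Finset (ℝ × ℝ))) (q : Fin 6 → ℝ × ℝ) : Prop :=
  ¬ Collinear ℝ {q 0, q 1, q 2} ∧ {q 0, q 1, q 3} ∈ T ∧ {q 1, q 2, q 4} ∈ T ∧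
    {q 2, q 0, q 5} ∈ T ∧ {q 3, q 4, q 5} ∈ T

theorem picks (P : Finset (ℝ × ℝ)) (T : Finset (Finset (ℝ × ℝ))) (k : ℕ)
    (hT : ∀ t ∈ T, t ⊆ P ∧ t.card = 3 ∧ Collinear ℝ (t : Set (ℝ × ℝ)))
    (hk : ∀ p q : ℝ × ℝ, p ≠ q → (T.filter fun t => p ∈ t ∧ q ∈ t).card ≤ k)
    (Θ : Finset (Fin 6 → ℝ × ℝ)) (hΘ : ∀ q ∈ Θ, Quad T q) :
    ∃ Θ' : Finset (Fin 6 → ℝ × ℝ), Θ.card ≤ k ^ 7 * Θ'.card ∧ Good P Θ' := by
  classical
  have hT3 : ∀ t ∈ T, t.card = 3 := fun t ht => (hT t ht).2.1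
  obtain ⟨Θ₁, s₁, c₁, f₁⟩ := pick1 T k hT3 hk Θ 0 1 3 (fun q hq => (hΘ q hq).2.1)
  have h₁ : ∀ q ∈ Θ₁, Quad T q := fun q hq => hΘ q (s₁ hq)
  obtain ⟨Θ₂, s₂, c₂, f₂⟩ := pick1 T k hT3 hk Θ₁ 1 2 4 (fun q hq => (h₁ q hq).2.2.1)
  have h₂ : ∀ q ∈ Θ₂, Quad T q := fun q hq => h₁ q (s₂ hq)
  obtain ⟨Θ₃, s₃, c₃, f₃⟩ := pick1 T k hT3 hk Θ₂ 2 0 5 (fun q hq => (h₂ q hq).2.2.2.1)
  have h₃ : ∀ q ∈ Θ₃, Quad T q := fun q hq => h₂ q (s₃ hq)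
  obtain ⟨Θ₄, s₄, c₄, f₄⟩ := pick1 T k hT3 hk Θ₃ 1 3 0 (fun q hq => by
    have := (h₃ q hq).2.1
    rwa [show ({q 1, q 3, q 0} : Finset (ℝ × ℝ)) = {q 0, q 1, q 3} by
      ext x; simp only [Finset.mem_insert, Finset.mem_singleton]; tauto])
  have h₄ : ∀ q ∈ Θ₄, Quad T q := fun q hq => h₃ q (s₄ hq)
  obtain ⟨Θ₅, s₅, c₅, f₅⟩ := pick1 T k hT3 hk Θ₄ 2 5 0 (fun q hq => by
    have := (h₄ q hq).2.2.2.1
    rwa [show ({q 2, q 5, q 0} : Finset (ℝ × ℝ)) = {q 2, q 0, q 5} by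
      ext x; simp only [Finset.mem_insert, Finset.mem_singleton]; tauto])
  have h₅ : ∀ q ∈ Θ₅, Quad T q := fun q hq => h₄ q (s₅ hq)
  obtain ⟨Θ₆, s₆, c₆, f₆⟩ := pick1 T k hT3 hk Θ₅ 3 4 5 (fun q hq => (h₅ q hq).2.2.2.2)
  have h₆ : ∀ q ∈ Θ₆, Quad T q := fun q hq => h₅ q (s₆ hq)
  obtain ⟨Θ₇, s₇, c₇, f₇⟩ := pick1 T k hT3 hk Θ₆ 4 5 3 (fun q hq => by
    have := (h₆ q hq).2.2.2.2
    rwa [show ({q 4, q 5, q 3} : Finset (ℝ × ℝ)) = {q 3, q 4, q 5} by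
      ext x; simp only [Finset.mem_insert, Finset.mem_singleton]; tauto])
  have h₇ : ∀ q ∈ Θ₇, Quad T q := fun q hq => h₆ q (s₇ hq)
  have i₇ : ∀ q ∈ Θ₇, q ∈ Θ₆ := fun q hq => s₇ hq
  have i₆ : ∀ q ∈ Θ₇, q ∈ Θ₅ := fun q hq => s₆ (i₇ q hq)
  have i₅ : ∀ q ∈ Θ₇, q ∈ Θ₄ := fun q hq => s₅ (i₆ q hq)
  have i₄ : ∀ q ∈ Θ₇, q ∈ Θ₃ := fun q hq => s₄ (i₅ q hq)
  have i₃ : ∀ q ∈ Θ₇, q ∈ Θ₂ := fun q hq => s₃ (i₄ q hq)
  have i₂ : ∀ q ∈ Θ₇, q ∈ Θ₁ := fun q hq => s₂ (i₃ q hq)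
  have hcol : ∀ p q r : ℝ × ℝ, ({p, q, r} : Finset (ℝ × ℝ)) ∈ T → Col p q r := by
    intro p q r h
    obtain ⟨_, h3, hc⟩ := hT _ h
    obtain ⟨n1, n2, n3⟩ := tri_ne rfl h3
    rw [Finset.coe_insert, Finset.coe_insert, Finset.coe_singleton] at hc
    exact col_of_collinear n1 n2 n3 hc
  refine ⟨Θ₇, ?_, ⟨?_, ?_, ?_, ?_, ?_, ?_, ?_, ?_, ?_, ?_, ?_, ?_, ?_⟩⟩
  · calc Θ.card ≤ k * Θ₁.card := c₁
      _ ≤ k * (k * Θ₂.card) := Nat.mul_le_mul_left _ c₂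
      _ ≤ k * (k * (k * Θ₃.card)) := by gcongr
      _ ≤ k * (k * (k * (k * Θ₄.card))) := by gcongr
      _ ≤ k * (k * (k * (k * (k * Θ₅.card)))) := by gcongr
      _ ≤ k * (k * (k * (k * (k * (k * Θ₆.card))))) := by gcongr
      _ ≤ k * (k * (k * (k * (k * (k * (k * Θ₇.card)))))) := by gcongr
      _ = k ^ 7 * Θ₇.card := by ring
  · intro q hq i
    have hQ := h₇ q hq
    have m1 := (hT _ hQ.2.1).1
    have m2 := (hT _ hQ.2.2.1).1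
    have m3 := (hT _ hQ.2.2.2.1).1
    fin_cases i
    · exact m1 (by simp)
    · exact m1 (by simp)
    · exact m2 (by simp)
    · exact m1 (by simp)
    · exact m2 (by simp)
    · exact m3 (by simp)
  · intro q hq
    exact dt_of_not_collinear (h₇ q hq).1
  · intro q hq
    exact hcol _ _ _ (h₇ q hq).2.1
  · intro q hq
    exact hcol _ _ _ (h₇ q hq).2.2.1
  · intro q hq
    exact hcol _ _ _ (h₇ q hq).2.2.2.1
  · intro q hq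
    exact hcol _ _ _ (h₇ q hq).2.2.2.2
  · exact fun t ht t' ht' => f₁ t (i₂ t ht) t' (i₂ t' ht')
  · exact fun t ht t' ht' => f₂ t (i₃ t ht) t' (i₃ t' ht')
  · exact fun t ht t' ht' => f₃ t (i₄ t ht) t' (i₄ t' ht')
  · exact fun t ht t' ht' => f₄ t (i₅ t ht) t' (i₅ t' ht')
  · exact fun t ht t' ht' => f₅ t (i₆ t ht) t' (i₆ t' ht')
  · exact fun t ht t' ht' => f₆ t (i₇ t ht) t' (i₇ t' ht')
  · exact f₇

/-! ## Numbers -/

theorem numQ (n r u : ℝ) (ρ : ℕ) (hu : 2 ≤ u) (hr : 2 ≤ r) (hρ : (ρ : ℝ) ≤ u ^ 167149)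
    (hn0 : 0 ≤ n) (hn : n ≤ u ^ 60 * ((u ^ 11731 * r) ^ ρ) ^ 2) :
    n ^ ((u⁻¹) ^ 170000) ≤ r := by
  have hr0 : (0 : ℝ) < r := by linarith
  have hr1 : (1 : ℝ) ≤ r := by linarith
  have hu0 : (0 : ℝ) < u := by linarith
  have hu1 : (1 : ℝ) ≤ u := by linarith
  have h1 : u ≤ r ^ u := by
    have h2 : 1 + u * 1 ≤ (1 + 1 : ℝ) ^ u :=
      one_add_mul_self_le_rpow_one_add (by norm_num) (by linarith)
    have h3 : (1 + 1 : ℝ) ^ u ≤ r ^ u := Real.rpow_le_rpow (by norm_num) (by linarith) hu0.le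
    linarith
  have h2 : u ^ (60 + 23462 * ρ) ≤ r ^ (u * ((60 + 23462 * ρ : ℕ) : ℝ)) := by
    rw [Real.rpow_mul hr0.le, Real.rpow_natCast]
    exact pow_le_pow_left₀ hu0.le h1 _
  have hn' : n ≤ u ^ (60 + 23462 * ρ) * r ^ (2 * ρ) := by
    refine hn.trans (le_of_eq ?_)
    rw [mul_pow, mul_pow, ← pow_mul, ← pow_mul, ← pow_mul, pow_add]
    ring
  have h3 : n ≤ r ^ (u * ((60 + 23462 * ρ : ℕ) : ℝ) + ((2 * ρ : ℕ) : ℝ)) := by
    rw [Real.rpow_add hr0, Real.rpow_natCast r (2 * ρ)]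
    exact hn'.trans (mul_le_mul_of_nonneg_right h2 (by positivity))
  have h4 : u * ((60 + 23462 * ρ : ℕ) : ℝ) + ((2 * ρ : ℕ) : ℝ) ≤ u ^ 170000 := by
    push_cast
    have hU : (1 : ℝ) ≤ u ^ 167149 := one_le_pow₀ hu1
    have e1 : u * (60 + 23462 * (ρ : ℝ)) + 2 * ρ ≤ 23524 * u ^ 167150 := by
      have e2 : u ^ 167150 = u * u ^ 167149 := pow_succ' u 167149
      have e3 : (ρ : ℝ) ≤ u * u ^ 167149 := by nlinarith
      have e4 : u * (ρ : ℝ) ≤ u * u ^ 167149 := mul_le_mul_of_nonneg_left hρ hu0.le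
      have e5 : u ≤ u * u ^ 167149 := by nlinarith
      rw [e2]
      linarith
    have e6 : (23524 : ℝ) ≤ u ^ 15 := by
      calc (23524 : ℝ) ≤ 2 ^ 15 := by norm_num
        _ ≤ u ^ 15 := pow_le_pow_left₀ (by norm_num) hu 15
    calc u * (60 + 23462 * (ρ : ℝ)) + 2 * ρ ≤ 23524 * u ^ 167150 := e1
      _ ≤ u ^ 15 * u ^ 167150 := mul_le_mul_of_nonneg_right e6 (by positivity)
      _ = u ^ 167165 := by rw [← pow_add]
      _ ≤ u ^ 170000 := pow_le_pow_right₀ hu1 (by norm_num)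
  have h5 : n ≤ r ^ (u ^ 170000) := h3.trans (Real.rpow_le_rpow_of_exponent_le hr1 h4)
  have h6 : (0 : ℝ) < u ^ 170000 := by positivity
  calc n ^ ((u⁻¹) ^ 170000) ≤ (r ^ (u ^ 170000)) ^ ((u⁻¹) ^ 170000) :=
        Real.rpow_le_rpow hn0 h5 (by positivity)
    _ = r := by
      rw [← Real.rpow_mul hr0.le, inv_pow, mul_inv_cancel₀ h6.ne', Real.rpow_one]

end Pool.Agent.QQ95
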