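import Mathlib

/-!
# Vectors of `ℝ³`, lifts of points of the plane, Menelaus
-/

set_option autoImplicit false

namespace Pool.Agent.QQ95

/-- the determinant of three vectors -/
def dt (u v w : ℝ × ℝ × ℝ) : ℝ :=
  u.1 * (v.2.1 * w.2.2 - v.2.2 * w.2.1) - u.2.1 * (v.1 * w.2.2 - v.2.2 * w.1) +
    u.2.2 * (v.1 * w.2.1 - v.2.1 * w.1)

/-- the lift `(p, 1)` of a point of the plane -/
def lf (p : ℝ × ℝ) : ℝ × ℝ × ℝ := (p.1, p.2, 1)

/-- `u` is a nonzero multiple of `v` -/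
def Sim (u v : ℝ × ℝ × ℝ) : Prop := ∃ r : ℝ, r ≠ 0 ∧ u = r • v

/-- `r` is on the line `p q`, and it is different from both -/
def Col (p q r : ℝ × ℝ) : Prop :=
  p ≠ q ∧ ∃ s t : ℝ, s ≠ 0 ∧ t ≠ 0 ∧ lf r = s • lf p + t • lf q

theorem v3ext {u v : ℝ × ℝ × ℝ} (h1 : u.1 = v.1) (h2 : u.2.1 = v.2.1) (h3 : u.2.2 = v.2.2) :
    u = v := Prod.ext h1 (Prod.ext h2 h3)

theorem dt_indep {u v w : ℝ × ℝ × ℝ} (h : dt u v w ≠ 0) {a b c : ℝ}
    (he : a • u + b • v + c • w = 0) : a = 0 ∧ b = 0 ∧ c = 0 := by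
  obtain ⟨u1, u2, u3⟩ := u
  obtain ⟨v1, v2, v3⟩ := v
  obtain ⟨w1, w2, w3⟩ := w
  simp only [dt] at h
  simp only [Prod.smul_mk, smul_eq_mul, Prod.mk_add_mk, Prod.mk_eq_zero] at he
  obtain ⟨e1, e2, e3⟩ := he
  have ha : a * (u1 * (v2 * w3 - v3 * w2) - u2 * (v1 * w3 - v3 * w1) +
      u3 * (v1 * w2 - v2 * w1)) = 0 := by
    linear_combination (v2 * w3 - v3 * w2) * e1 - (v1 * w3 - v3 * w1) * e2 +
      (v1 * w2 - v2 * w1) * e3
  have hb : b * (u1 * (v2 * w3 - v3 * w2) - u2 * (v1 * w3 - v3 * w1) +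
      u3 * (v1 * w2 - v2 * w1)) = 0 := by
    linear_combination (w2 * u3 - w3 * u2) * e1 - (w1 * u3 - w3 * u1) * e2 +
      (w1 * u2 - w2 * u1) * e3
  have hc : c * (u1 * (v2 * w3 - v3 * w2) - u2 * (v1 * w3 - v3 * w1) +
      u3 * (v1 * w2 - v2 * w1)) = 0 := by
    linear_combination (u2 * v3 - u3 * v2) * e1 - (u1 * v3 - u3 * v1) * e2 +
      (u1 * v2 - u2 * v1) * e3
  refine ⟨?_, ?_, ?_⟩
  · exact (mul_eq_zero.1 ha).resolve_right h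
  · exact (mul_eq_zero.1 hb).resolve_right h
  · exact (mul_eq_zero.1 hc).resolve_right h

theorem lf_ne {p : ℝ × ℝ} : lf p ≠ 0 := by
  intro h
  have := congrArg (fun u : ℝ × ℝ × ℝ => u.2.2) h
  simp [lf] at this

theorem lf_indep {p q : ℝ × ℝ} (h : p ≠ q) {a b : ℝ} (he : a • lf p + b • lf q = 0) :
    a = 0 ∧ b = 0 := by
  obtain ⟨p1, p2⟩ := p
  obtain ⟨q1, q2⟩ := q
  simp only [lf, Prod.smul_mk, smul_eq_mul, Prod.mk_add_mk, Prod.mk_eq_zero] at he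
  obtain ⟨e1, e2, e3⟩ := he
  have hb : b = -a := by linarith
  subst hb
  have h1 : a * (p1 - q1) = 0 := by linarith
  have h2 : a * (p2 - q2) = 0 := by linarith
  by_cases ha : a = 0
  · exact ⟨ha, by rw [ha]; simp⟩
  · exfalso
    apply h
    have h3 := (mul_eq_zero.1 h1).resolve_left ha
    have h4 := (mul_eq_zero.1 h2).resolve_left ha
    rw [Prod.mk.injEq]
    exact ⟨by linarith, by linarith⟩

theorem Col.swap {p q r : ℝ × ℝ} (h : Col p q r) : Col q p r := by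
  obtain ⟨hne, s, t, hs, ht, h⟩ := h
  exact ⟨hne.symm, t, s, ht, hs, by rw [h, add_comm]⟩

theorem Col.rot {p q r : ℝ × ℝ} (h : Col p q r) : Col p r q := by
  obtain ⟨hne, s, t, hs, ht, h⟩ := h
  refine ⟨?_, -(t⁻¹ * s), t⁻¹, ?_, inv_ne_zero ht, ?_⟩
  · rintro rfl
    have h' : (1 - s) • lf p + (-t) • lf q = 0 := by
      have h1 : lf p - (s • lf p + t • lf q) = 0 := by rw [← h]; simp
      rw [← h1]
      module
    have := (lf_indep hne h').2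
    exact ht (by linarith)
  · exact neg_ne_zero.2 (mul_ne_zero (inv_ne_zero ht) hs)
  · rw [h, smul_add, smul_smul, smul_smul, inv_mul_cancel₀ ht, one_smul]
    module

theorem Sim.smul {u v : ℝ × ℝ × ℝ} (h : Sim u v) {r : ℝ} (hr : r ≠ 0) : Sim (r • u) v := by
  obtain ⟨s, hs, rfl⟩ := h
  exact ⟨r * s, mul_ne_zero hr hs, by rw [smul_smul]⟩

theorem Sim.symm {u v : ℝ × ℝ × ℝ} (h : Sim u v) : Sim v u := by
  obtain ⟨s, hs, rfl⟩ := h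
  exact ⟨s⁻¹, inv_ne_zero hs, by rw [smul_smul, inv_mul_cancel₀ hs, one_smul]⟩

theorem Sim.neg {u v : ℝ × ℝ × ℝ} (h : Sim u v) : Sim (-u) v := by
  obtain ⟨s, hs, rfl⟩ := h
  exact ⟨-s, neg_ne_zero.2 hs, by rw [neg_smul]⟩

theorem Col.span {p q r : ℝ × ℝ} (h : Col p q r) :
    ∃ g k : ℝ, lf r = g • lf p + k • lf q := by
  obtain ⟨_, s, t, _, _, h⟩ := h
  exact ⟨s, t, h⟩

theorem dt_swap {u v w : ℝ × ℝ × ℝ} (h : dt u v w ≠ 0) : dt v u w ≠ 0 := by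
  have : dt v u w = -dt u v w := by
    unfold dt
    ring
  rw [this]
  exact neg_ne_zero.2 h

theorem dt_swap' {u v w : ℝ × ℝ × ℝ} (h : dt u v w ≠ 0) : dt u w v ≠ 0 := by
  have : dt u w v = -dt u v w := by
    unfold dt
    ring
  rw [this]
  exact neg_ne_zero.2 h

/-- Menelaus. -/
theorem menelaus {vp vq vr x y z p q r : ℝ × ℝ × ℝ} (hd : dt p q r ≠ 0)
    (hp : Sim vp p) (hq : Sim vq q) (hr : Sim vr r)
    (h1 : Sim (vp - vq) x) (h2 : Sim (vq - vr) y) (hz : ∃ g h : ℝ, z = g • p + h • r)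
    (hz' : ∃ m l : ℝ, z = m • x + l • y) (hz0 : z ≠ 0) : Sim (vp - vr) z := by
  obtain ⟨σ, hσ, rfl⟩ := hp
  obtain ⟨τ, hτ, rfl⟩ := hq
  obtain ⟨υ, hυ, rfl⟩ := hr
  obtain ⟨κ, hκ, h1⟩ := h1
  obtain ⟨κ', hκ', h2⟩ := h2
  obtain ⟨g, h, hz⟩ := hz
  obtain ⟨m, l, hz'⟩ := hz'
  have hx : x = κ⁻¹ • (σ • p - τ • q) := by
    rw [h1, smul_smul, inv_mul_cancel₀ hκ, one_smul]
  have hy : y = κ'⁻¹ • (τ • q - υ • r) := by
    rw [h2, smul_smul, inv_mul_cancel₀ hκ', one_smul]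
  have hlin : (m * κ⁻¹ * σ - g) • p + ((l * κ'⁻¹ - m * κ⁻¹) * τ) • q +
      (-(l * κ'⁻¹ * υ) - h) • r = 0 := by
    have h3 : g • p + h • r = m • x + l • y := by rw [← hz, ← hz']
    have h4 : m • x + l • y - (g • p + h • r) = 0 := by rw [h3]; simp
    rw [hx, hy] at h4
    rw [← h4]
    module
  obtain ⟨e1, e2, e3⟩ := dt_indep hd hlin
  have e2' : l * κ'⁻¹ = m * κ⁻¹ := by
    have := (mul_eq_zero.1 e2).resolve_right hτ
    linarith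
  have hg : z = (m * κ⁻¹) • (σ • p - υ • r) := by
    rw [hz]
    have : g = m * κ⁻¹ * σ := by linarith
    have h' : h = -(m * κ⁻¹ * υ) := by rw [← e2']; linarith
    rw [this, h']
    module
  have hm : m * κ⁻¹ ≠ 0 := by
    intro h0
    apply hz0
    rw [hg, h0, zero_smul]
  exact ⟨(m * κ⁻¹)⁻¹, inv_ne_zero hm, by rw [hg, smul_smul, inv_mul_cancel₀ hm, one_smul]⟩

/-- Scale the lift of `q` so that its difference to the given multiple of the lift of `p` points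
to `r`. -/
theorem scale {p q r : ℝ × ℝ} (h : Col p q r) {v : ℝ × ℝ × ℝ} (hv : Sim v (lf p)) :
    ∃ w, Sim w (lf q) ∧ Sim (w - v) (lf r) := by
  obtain ⟨_, s, t, hs, ht, h⟩ := h
  obtain ⟨σ, hσ, rfl⟩ := hv
  refine ⟨(-(σ * s⁻¹) * t) • lf q, ⟨_, ?_, rfl⟩, ⟨-(σ * s⁻¹), ?_, ?_⟩⟩
  · exact mul_ne_zero (neg_ne_zero.2 (mul_ne_zero hσ (inv_ne_zero hs))) ht
  · exact neg_ne_zero.2 (mul_ne_zero hσ (inv_ne_zero hs))
  · rw [h, smul_add, smul_smul, smul_smul]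
    have : -(σ * s⁻¹) * s = -σ := by
      field_simp
    rw [this]
    module

/-- Gauges for all points `q` with respect to a base vector. -/
theorem gauge {p : ℝ × ℝ} {v0 : ℝ × ℝ × ℝ} (h0 : Sim v0 (lf p)) (R : ℝ × ℝ → ℝ × ℝ → Prop)
    (hf : ∀ q r r', R q r → R q r' → r = r') (hc : ∀ q r, R q r → Col p q r) :
    ∃ v : ℝ × ℝ → ℝ × ℝ × ℝ, (∀ q, Sim (v q) (lf q)) ∧ ∀ q r, R q r → Sim (v q - v0) (lf r) := by
  have h : ∀ q, ∃ w : ℝ × ℝ × ℝ, Sim w (lf q) ∧ ∀ r, R q r → Sim (w - v0) (lf r) := by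
    intro q
    by_cases hq : ∃ r, R q r
    · obtain ⟨r, hr⟩ := hq
      obtain ⟨w, hw, hw'⟩ := scale (hc q r hr) h0
      exact ⟨w, hw, fun r' hr' => by rw [hf q r' r hr' hr]; exact hw'⟩
    · exact ⟨lf q, ⟨1, one_ne_zero, by rw [one_smul]⟩, fun r hr => absurd ⟨r, hr⟩ hq⟩
  choose v hv hv' using h
  exact ⟨v, hv, hv'⟩

/-- A scalar which depends only on `b`. -/
theorem scal {α : Type*} {β : Type*} (S : Set α) (f : α → β)
    (Q : α → ℝ → Prop) (hf : ∀ t ∈ S, ∀ t' ∈ S, f t = f t' → Q t = Q t')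
    (hQ : ∀ t ∈ S, ∃ r : ℝ, r ≠ 0 ∧ Q t r) :
    ∃ F : β → ℝ, (∀ b, F b ≠ 0) ∧ ∀ t ∈ S, Q t (F (f t)) := by
  classical
  have h : ∀ b, ∃ r : ℝ, r ≠ 0 ∧ ∀ t ∈ S, f t = b → Q t r := by
    intro b
    by_cases hb : ∃ t ∈ S, f t = b
    · obtain ⟨t, ht, htb⟩ := hb
      obtain ⟨r, hr, hr'⟩ := hQ t ht
      exact ⟨r, hr, fun t' ht' hb' => by
        rw [hf t' ht' t ht (by rw [hb', htb])]; exact hr'⟩
    · exact ⟨1, one_ne_zero, fun t ht htb => absurd ⟨t, ht, htb⟩ hb⟩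
  choose F hF hF' using h
  exact ⟨F, hF, fun t ht => hF' _ t ht rfl⟩

end Pool.Agent.QQ95
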