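import Pool.Agent.Lib.MP_95b053_co.Q.Pick
import Pool.Agent.Lib.MP_95b053_co.Q.Lin

/-!
# Gauges for the three vertices of the triangles of complete quadrilaterals
-/

set_option autoImplicit false

namespace Pool.Agent.QQ95

open Finset

/-- A set of complete quadrilaterals (triangle `t 0, t 1, t 2`, points `t 3, t 4, t 5` on the sides)
in which two points of a line determine the third one. -/
structure Good (P : Finset (ℝ × ℝ)) (Θ : Finset (Fin 6 → ℝ × ℝ)) : Prop where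
  mem : ∀ t ∈ Θ, ∀ i, t i ∈ P
  tri : ∀ t ∈ Θ, dt (lf (t 0)) (lf (t 1)) (lf (t 2)) ≠ 0
  c1 : ∀ t ∈ Θ, Col (t 0) (t 1) (t 3)
  c2 : ∀ t ∈ Θ, Col (t 1) (t 2) (t 4)
  c3 : ∀ t ∈ Θ, Col (t 2) (t 0) (t 5)
  c4 : ∀ t ∈ Θ, Col (t 3) (t 4) (t 5)
  f1 : ∀ t ∈ Θ, ∀ t' ∈ Θ, t 0 = t' 0 → t 1 = t' 1 → t 3 = t' 3
  f2 : ∀ t ∈ Θ, ∀ t' ∈ Θ, t 1 = t' 1 → t 2 = t' 2 → t 4 = t' 4
  f3 : ∀ t ∈ Θ, ∀ t' ∈ Θ, t 2 = t' 2 → t 0 = t' 0 → t 5 = t' 5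
  f4 : ∀ t ∈ Θ, ∀ t' ∈ Θ, t 1 = t' 1 → t 3 = t' 3 → t 0 = t' 0
  f5 : ∀ t ∈ Θ, ∀ t' ∈ Θ, t 2 = t' 2 → t 5 = t' 5 → t 0 = t' 0
  f6 : ∀ t ∈ Θ, ∀ t' ∈ Θ, t 3 = t' 3 → t 4 = t' 4 → t 5 = t' 5
  f7 : ∀ t ∈ Θ, ∀ t' ∈ Θ, t 4 = t' 4 → t 5 = t' 5 → t 3 = t' 3

theorem Good.ext {P : Finset (ℝ × ℝ)} {Θ : Finset (Fin 6 → ℝ × ℝ)} (hG : Good P Θ)
    {t t' : Fin 6 → ℝ × ℝ} (ht : t ∈ Θ) (ht' : t' ∈ Θ) (h0 : t 0 = t' 0) (h1 : t 1 = t' 1)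
    (h2 : t 2 = t' 2) : t = t' := by
  have h3 := hG.f1 t ht t' ht' h0 h1
  have h4 := hG.f2 t ht t' ht' h1 h2
  have h5 := hG.f3 t ht t' ht' h2 h0
  funext i
  fin_cases i
  · exact h0
  · exact h1
  · exact h2
  · exact h3
  · exact h4
  · exact h5

/-- The counting part of step 1. -/
theorem count1 {P : Finset (ℝ × ℝ)} {Θ : Finset (Fin 6 → ℝ × ℝ)} (hG : Good P Θ)
    (hP : P.Nonempty) : ∃ a0 c0 : ℝ × ℝ, ∃ Θ' ⊆ Θ, Θ.card ^ 4 ≤ P.card ^ 9 * Θ'.card ∧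
      ∀ t ∈ Θ', (∃ t' ∈ Θ, t' 0 = a0 ∧ t' 1 = t 1 ∧ t' 2 = t 2) ∧
        (∃ s ∈ Θ, s 0 = t 0 ∧ s 1 = t 1 ∧ s 2 = c0) ∧
        (∃ s' ∈ Θ, s' 0 = a0 ∧ s' 1 = t 1 ∧ s' 2 = c0) := by
  classical
  set f : (Fin 6 → ℝ × ℝ) → (ℝ × ℝ) × (ℝ × ℝ) := fun t => (t 1, t 2) with hf
  set S1 := (Θ ×ˢ Θ).filter fun q => f q.1 = f q.2 with hS1
  set g : (Fin 6 → ℝ × ℝ) × (Fin 6 → ℝ × ℝ) → (ℝ × ℝ) × (ℝ × ℝ) × (ℝ × ℝ) :=
    fun q => (q.1 1, q.1 0, q.2 0) with hg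
  set S2 := (S1 ×ˢ S1).filter fun q => g q.1 = g q.2 with hS2
  have h1 : Θ.card ^ 2 ≤ (P ×ˢ P).card * S1.card := by
    apply cs_pairs
    intro t ht
    exact Finset.mem_product.2 ⟨hG.mem t ht 1, hG.mem t ht 2⟩
  have h2 : S1.card ^ 2 ≤ (P ×ˢ P ×ˢ P).card * S2.card := by
    apply cs_pairs
    intro q hq
    have hq' := Finset.mem_product.1 (Finset.mem_filter.1 hq).1
    exact Finset.mem_product.2 ⟨hG.mem _ hq'.1 1,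
      Finset.mem_product.2 ⟨hG.mem _ hq'.1 0, hG.mem _ hq'.2 0⟩⟩
  obtain ⟨⟨a0, c0⟩, _, h3⟩ := pigeon S2 (fun q => (q.1.2 0, q.2.1 2)) (P ×ˢ P) (by
    intro q hq
    have hq' := Finset.mem_product.1 (Finset.mem_filter.1 hq).1
    have hq1 := Finset.mem_product.1 (Finset.mem_filter.1 hq'.1).1
    have hq2 := Finset.mem_product.1 (Finset.mem_filter.1 hq'.2).1
    exact Finset.mem_product.2 ⟨hG.mem _ hq1.2 0, hG.mem _ hq2.1 2⟩) (hP.product hP)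
  set S3 := S2.filter fun q => (q.1.2 0, q.2.1 2) = (a0, c0) with hS3
  have hdata : ∀ q ∈ S3, q.1.1 ∈ Θ ∧ q.1.2 ∈ Θ ∧ q.2.1 ∈ Θ ∧ q.2.2 ∈ Θ ∧
      q.1.2 0 = a0 ∧ q.1.2 1 = q.1.1 1 ∧ q.1.2 2 = q.1.1 2 ∧
      q.2.1 0 = q.1.1 0 ∧ q.2.1 1 = q.1.1 1 ∧ q.2.1 2 = c0 ∧
      q.2.2 0 = a0 ∧ q.2.2 1 = q.1.1 1 ∧ q.2.2 2 = c0 := by
    intro q hq
    obtain ⟨hq1, hq2⟩ := Finset.mem_filter.1 hq
    obtain ⟨hq3, hq4⟩ := Finset.mem_filter.1 hq1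
    obtain ⟨hq5, hq6⟩ := Finset.mem_product.1 hq3
    obtain ⟨hq7, hq8⟩ := Finset.mem_filter.1 hq5
    obtain ⟨hq9, hq10⟩ := Finset.mem_filter.1 hq6
    obtain ⟨m1, m2⟩ := Finset.mem_product.1 hq7
    obtain ⟨m3, m4⟩ := Finset.mem_product.1 hq9
    simp only [hf, hg, Prod.mk.injEq] at hq2 hq4 hq8 hq10
    obtain ⟨e1, e2⟩ := hq2
    obtain ⟨e3, e4, e5⟩ := hq4
    obtain ⟨e6, e7⟩ := hq8
    obtain ⟨e8, e9⟩ := hq10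
    exact ⟨m1, m2, m3, m4, e1, e6.symm, e7.symm, e4.symm, e3.symm, e2, by rw [← e5, e1],
      by rw [← e8, e3], by rw [← e9, e2]⟩
  have hinj : Set.InjOn (fun q : ((Fin 6 → ℝ × ℝ) × (Fin 6 → ℝ × ℝ)) ×
      ((Fin 6 → ℝ × ℝ) × (Fin 6 → ℝ × ℝ)) => q.1.1) (S3 : Set _) := by
    rintro ⟨⟨t, t'⟩, ⟨s, s'⟩⟩ hq ⟨⟨u, u'⟩, ⟨r, r'⟩⟩ hr he
    simp only at he
    subst he
    have A := hdata _ (Finset.mem_coe.1 hq)
    have B := hdata _ (Finset.mem_coe.1 hr)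
    simp only at A B
    obtain ⟨a1, a2, a3, a4, a5, a6, a7, a8, a9, a10, a11, a12, a13⟩ := A
    obtain ⟨b1, b2, b3, b4, b5, b6, b7, b8, b9, b10, b11, b12, b13⟩ := B
    have e1 : t' = u' := hG.ext a2 b2 (by rw [a5, b5]) (by rw [a6, b6]) (by rw [a7, b7])
    have e2 : s = r := hG.ext a3 b3 (by rw [a8, b8]) (by rw [a9, b9]) (by rw [a10, b10])
    have e3 : s' = r' := hG.ext a4 b4 (by rw [a11, b11]) (by rw [a12, b12]) (by rw [a13, b13])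
    rw [e1, e2, e3]
  refine ⟨a0, c0, S3.image fun q => q.1.1, ?_, ?_, ?_⟩
  · intro t ht
    obtain ⟨q, hq, rfl⟩ := Finset.mem_image.1 ht
    exact (hdata q hq).1
  · rw [Finset.card_image_of_injOn hinj]
    rw [Finset.card_product] at h1 h3
    rw [Finset.card_product, Finset.card_product] at h2
    calc Θ.card ^ 4 = (Θ.card ^ 2) ^ 2 := by ring
      _ ≤ (P.card * P.card * S1.card) ^ 2 := Nat.pow_le_pow_left h1 2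
      _ = P.card ^ 4 * S1.card ^ 2 := by ring
      _ ≤ P.card ^ 4 * (P.card * (P.card * P.card) * S2.card) := Nat.mul_le_mul_left _ h2
      _ = P.card ^ 7 * S2.card := by ring
      _ ≤ P.card ^ 7 * (P.card * P.card * S3.card) := Nat.mul_le_mul_left _ h3
      _ = P.card ^ 9 * S3.card := by ring
  · intro t ht
    obtain ⟨q, hq, rfl⟩ := Finset.mem_image.1 ht
    obtain ⟨a1, a2, a3, a4, a5, a6, a7, a8, a9, a10, a11, a12, a13⟩ := hdata q hq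
    exact ⟨⟨q.1.2, a2, a5, a6, a7⟩, ⟨q.2.1, a3, a8, a9, a10⟩, ⟨q.2.2, a4, a11, a12, a13⟩⟩

/-- **Step 1.** Gauges for the three roles. -/
theorem step1 {P : Finset (ℝ × ℝ)} {Θ : Finset (Fin 6 → ℝ × ℝ)} (hG : Good P Θ)
    (hP : P.Nonempty) : ∃ vA vB wC : ℝ × ℝ → ℝ × ℝ × ℝ, (∀ p, Sim (vA p) (lf p)) ∧
      (∀ p, Sim (vB p) (lf p)) ∧ (∀ p, Sim (wC p) (lf p)) ∧
      ∃ Θ' ⊆ Θ, Θ.card ^ 4 ≤ P.card ^ 9 * Θ'.card ∧
        ∀ t ∈ Θ', Sim (vA (t 0) - vB (t 1)) (lf (t 3)) ∧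
          Sim (vB (t 1) - wC (t 2)) (lf (t 4)) ∧ Sim (vA (t 0) - wC (t 2)) (lf (t 5)) := by
  classical
  obtain ⟨a0, c0, Θ', hsub, hcard, hΘ'⟩ := count1 hG hP
  have hself : ∀ p : ℝ × ℝ, Sim (lf p) (lf p) := fun p => ⟨1, one_ne_zero, by rw [one_smul]⟩
  rcases Θ'.eq_empty_or_nonempty with hemp | ⟨t1, ht1⟩
  · subst hemp
    exact ⟨lf, lf, lf, hself, hself, hself, ∅, by simp, hcard, by simp⟩
  obtain ⟨_, _, s1, hs1, hs10, hs11, hs12⟩ := hΘ' t1 ht1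
  have hcol := hG.c3 s1 hs1
  rw [hs10, hs12] at hcol
  obtain ⟨vc0, hvc0, hvc0'⟩ := scale hcol.swap (hself a0)
  have hz00 : ∀ s' ∈ Θ, s' 0 = a0 → s' 2 = c0 → Sim (lf a0 - vc0) (lf (s' 5)) := by
    intro s' hs' h0 h2
    have : s' 5 = s1 5 := hG.f3 s' hs' s1 hs1 (by rw [h2, hs12]) (by rw [h0, hs10])
    rw [this, ← neg_sub]
    exact hvc0'.neg
  obtain ⟨vA, hvA, hvA'⟩ := gauge hvc0 (fun a z => ∃ s ∈ Θ, s 0 = a ∧ s 2 = c0 ∧ s 5 = z)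
    (by
      rintro q r r' ⟨s, hs, h0, h2, h5⟩ ⟨s', hs', h0', h2', h5'⟩
      rw [← h5, ← h5']
      exact hG.f3 s hs s' hs' (by rw [h2, h2']) (by rw [h0, h0']))
    (by
      rintro q r ⟨s, hs, h0, h2, h5⟩
      have := hG.c3 s hs
      rw [h0, h2, h5] at this
      exact this)
  obtain ⟨wC, hwC, hwC'⟩ := gauge (hself a0) (fun c z => ∃ s ∈ Θ, s 0 = a0 ∧ s 2 = c ∧ s 5 = z)
    (by
      rintro q r r' ⟨s, hs, h0, h2, h5⟩ ⟨s', hs', h0', h2', h5'⟩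
      rw [← h5, ← h5']
      exact hG.f3 s hs s' hs' (by rw [h2, h2']) (by rw [h0, h0']))
    (by
      rintro q r ⟨s, hs, h0, h2, h5⟩
      have := (hG.c3 s hs).swap
      rw [h0, h2, h5] at this
      exact this)
  obtain ⟨vB, hvB, hvB'⟩ := gauge hvc0 (fun b y => ∃ s ∈ Θ, s 1 = b ∧ s 2 = c0 ∧ s 4 = y)
    (by
      rintro q r r' ⟨s, hs, h0, h2, h5⟩ ⟨s', hs', h0', h2', h5'⟩
      rw [← h5, ← h5']
      exact hG.f2 s hs s' hs' (by rw [h0, h0']) (by rw [h2, h2']))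
    (by
      rintro q r ⟨s, hs, h0, h2, h5⟩
      have := (hG.c2 s hs).swap
      rw [h0, h2, h5] at this
      exact this)
  refine ⟨vA, vB, wC, hvA, hvB, hwC, Θ', hsub, hcard, ?_⟩
  intro t ht
  obtain ⟨⟨t', ht', ht'0, ht'1, ht'2⟩, ⟨s, hs, hs0, hs1', hs2⟩, ⟨s', hs', hs'0, hs'1, hs'2⟩⟩ :=
    hΘ' t ht
  have htΘ := hsub ht
  -- (1)
  have e1 : Sim (lf a0 - vB (t 1)) (lf (s' 3)) := by
    have hy : Sim (vc0 - vB (t 1)) (lf (s' 4)) := by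
      rw [← neg_sub]
      exact (hvB' (t 1) (s' 4) ⟨s', hs', hs'1, hs'2, rfl⟩).neg
    have hd := hG.tri s' hs'
    rw [hs'0, hs'1, hs'2] at hd
    have hx := (hG.c1 s' hs').span
    rw [hs'0, hs'1] at hx
    exact menelaus (dt_swap' hd) (hself a0) hvc0 (hvB _) (hz00 s' hs' hs'0 hs'2) hy hx
      (hG.c4 s' hs').rot.swap.rot.span lf_ne
  -- (2)
  have e2 : Sim (vA (t 0) - vB (t 1)) (lf (t 3)) := by
    have hy : Sim (vc0 - vB (t 1)) (lf (s 4)) := by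
      rw [← neg_sub]
      exact (hvB' (t 1) (s 4) ⟨s, hs, hs1', hs2, rfl⟩).neg
    have hz : Sim (vA (t 0) - vc0) (lf (s 5)) := hvA' (t 0) (s 5) ⟨s, hs, hs0, hs2, rfl⟩
    have hd := hG.tri s hs
    rw [hs0, hs1', hs2] at hd
    have hx := (hG.c1 s hs).span
    rw [hs0, hs1'] at hx
    have := menelaus (dt_swap' hd) (hvA _) hvc0 (hvB _) hz hy hx
      (hG.c4 s hs).rot.swap.rot.span lf_ne
    rwa [hG.f1 s hs t htΘ hs0 hs1'] at this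
  -- (3)
  have e3 : Sim (vB (t 1) - wC (t 2)) (lf (t 4)) := by
    have hx : Sim (vB (t 1) - lf a0) (lf (t' 3)) := by
      rw [← neg_sub, hG.f1 t' ht' s' hs' (by rw [ht'0, hs'0]) (by rw [ht'1, hs'1])]
      exact e1.neg
    have hz : Sim (lf a0 - wC (t 2)) (lf (t' 5)) := by
      rw [← neg_sub]
      exact (hwC' (t 2) (t' 5) ⟨t', ht', ht'0, ht'2, rfl⟩).neg
    have hd := hG.tri t' ht'
    rw [ht'0, ht'1, ht'2] at hd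
    have hy := (hG.c2 t' ht').span
    rw [ht'1, ht'2] at hy
    have := menelaus (dt_swap hd) (hvB _) (hself a0) (hwC _) hx hz hy
      (hG.c4 t' ht').rot.span lf_ne
    rwa [hG.f2 t' ht' t htΘ ht'1 ht'2] at this
  exact ⟨e2, e3, menelaus (hG.tri t htΘ) (hvA _) (hvB _) (hwC _) e2 e3
    (hG.c3 t htΘ).swap.span (hG.c4 t htΘ).span lf_ne⟩

end Pool.Agent.QQ95
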