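import Pool.Agent.Lib.MP_95b053_co.Q.PopQ

/-!
# The group of the maps `s ↦ u + r s` of `ℝ³`
-/

set_option autoImplicit false

namespace Pool.Agent.QQ95

open Finset
open scoped Pointwise

/-- the map `s ↦ u + r s` of `ℝ³`, `r ≠ 0` -/
@[ext] structure Hg where
  r : ℝˣ
  u : ℝ × ℝ × ℝ

namespace Hg

instance : Mul Hg := ⟨fun g h => ⟨g.r * h.r, g.u + (g.r : ℝ) • h.u⟩⟩
instance : One Hg := ⟨⟨1, 0⟩⟩
instance : Inv Hg := ⟨fun g => ⟨g.r⁻¹, -(((g.r⁻¹ : ℝˣ) : ℝ) • g.u)⟩⟩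

theorem mul_r (g h : Hg) : (g * h).r = g.r * h.r := rfl
theorem mul_u (g h : Hg) : (g * h).u = g.u + (g.r : ℝ) • h.u := rfl
theorem one_r : (1 : Hg).r = 1 := rfl
theorem one_u : (1 : Hg).u = 0 := rfl
theorem inv_r (g : Hg) : (g⁻¹).r = g.r⁻¹ := rfl
theorem inv_u (g : Hg) : (g⁻¹).u = -(((g.r⁻¹ : ℝˣ) : ℝ) • g.u) := rfl

instance : Group Hg := Group.ofLeftAxioms
  (by
    intro a b c
    apply Hg.ext
    · simp only [mul_r, mul_assoc]
    · simp only [mul_u, mul_r, smul_add, smul_smul, Units.val_mul, add_assoc])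
  (by
    intro a
    apply Hg.ext
    · simp only [mul_r, one_r, one_mul]
    · simp only [mul_u, one_r, one_u, Units.val_one, one_smul, zero_add])
  (by
    intro a
    apply Hg.ext
    · simp only [mul_r, inv_r, one_r, inv_mul_cancel]
    · simp only [mul_u, inv_r, inv_u, one_u]
      simp)

/-- the action on `ℝ³` -/
def ap (g : Hg) (s : ℝ × ℝ × ℝ) : ℝ × ℝ × ℝ := g.u + (g.r : ℝ) • s

theorem ap_mul (g h : Hg) (s : ℝ × ℝ × ℝ) : ap (g * h) s = ap g (ap h s) := by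
  simp only [ap, mul_u, mul_r, smul_add, smul_smul, Units.val_mul, add_assoc]

theorem ap_one (s : ℝ × ℝ × ℝ) : ap 1 s = s := by
  simp only [ap, one_u, one_r, Units.val_one, one_smul, zero_add]

theorem ap_zero (g : Hg) : ap g 0 = g.u := by
  simp only [ap, smul_zero, add_zero]

theorem ap_inv (g : Hg) (s : ℝ × ℝ × ℝ) : ap g⁻¹ (ap g s) = s := by
  rw [← ap_mul, inv_mul_cancel, ap_one]

theorem ap_u (g x : Hg) : ap g x.u = (g * x).u := by
  rw [← ap_zero x, ← ap_mul, ap_zero]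

theorem eq_one_of_fix {g : Hg} {s t : ℝ × ℝ × ℝ} (hst : s ≠ t) (hs : ap g s = s)
    (ht : ap g t = t) : g = 1 := by
  have h1 : ((g.r : ℝ) - 1) • (s - t) = 0 := by
    have : ap g s - ap g t - (s - t) = 0 := by rw [hs, ht]; simp
    rw [← this]
    unfold ap
    module
  have h2 : (g.r : ℝ) = 1 := by
    rcases smul_eq_zero.1 h1 with h | h
    · linarith
    · exact absurd (sub_eq_zero.1 h) hst
  apply Hg.ext
  · apply Units.ext
    rw [h2]
    rfl
  · unfold ap at hs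
    rw [h2, one_smul] at hs
    rw [one_u]
    exact add_eq_right.1 hs

theorem exists_fix {g : Hg} (hg : g.r ≠ 1) : ∃ z, ap g z = z ∧ ∀ s, ap g s = s → s = z := by
  have h1 : (1 : ℝ) - g.r ≠ 0 := by
    intro h
    apply hg
    apply Units.ext
    rw [Units.val_one]
    linarith
  refine ⟨(1 - (g.r : ℝ))⁻¹ • g.u, ?_, ?_⟩
  · unfold ap
    rw [smul_smul]
    have h2 : (1 : ℝ) + (g.r : ℝ) * (1 - (g.r : ℝ))⁻¹ = (1 - (g.r : ℝ))⁻¹ := by
      field_simp
      ring
    calc g.u + ((g.r : ℝ) * (1 - (g.r : ℝ))⁻¹) • g.u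
        = ((1 : ℝ) + (g.r : ℝ) * (1 - (g.r : ℝ))⁻¹) • g.u := by rw [add_smul, one_smul]
      _ = (1 - (g.r : ℝ))⁻¹ • g.u := by rw [h2]
  · intro s hs
    have h2 : (1 - (g.r : ℝ)) • s = g.u := by
      unfold ap at hs
      rw [sub_smul, one_smul]
      exact sub_eq_of_eq_add hs.symm
    rw [← h2, smul_smul, inv_mul_cancel₀ h1, one_smul]

/-- translations -/
theorem mul_u_of_one {g h : Hg} (hg : g.r = 1) : (g * h).u = g.u + h.u := by
  rw [mul_u, hg, Units.val_one, one_smul]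

theorem inv_u_of_one {g : Hg} (hg : g.r = 1) : (g⁻¹).u = -g.u := by
  rw [inv_u, hg, inv_one, Units.val_one, one_smul]

end Hg

noncomputable instance : DecidableEq Hg := Classical.decEq _

/-- Many pairs with the same image. -/
theorem pre (Q V' X Z : Finset Hg) (C : ℝ) (hV : V' ⊆ X) (hVne : V'.Nonempty)
    (hZ : ∀ d ∈ Q, ∀ x ∈ X, d * x ∈ Z) (hcard : (Z.card : ℝ) ≤ C * X.card)
    (h2 : X.card ≤ 2 * V'.card) :
    ∃ w : ℝ × ℝ × ℝ, (Q.card : ℝ) ≤
      2 * C * (((Q ×ˢ V').filter fun p => (p.1 * p.2).u = w).card : ℝ) := by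
  classical
  rcases Q.eq_empty_or_nonempty with rfl | hQ
  · exact ⟨0, by simp⟩
  have hZne : (Z.image Hg.u).Nonempty := by
    obtain ⟨d, hd⟩ := hQ
    obtain ⟨x, hx⟩ := hVne
    exact ⟨_, Finset.mem_image_of_mem _ (hZ d hd x (hV hx))⟩
  obtain ⟨w, _, hw⟩ := pigeon (Q ×ˢ V') (fun p => (p.1 * p.2).u) (Z.image Hg.u) (by
    intro p hp
    obtain ⟨h3, h4⟩ := Finset.mem_product.1 hp
    exact Finset.mem_image_of_mem _ (hZ _ h3 _ (hV h4))) hZne
  refine ⟨w, ?_⟩
  set N := ((Q ×ˢ V').filter fun p => (p.1 * p.2).u = w).card with hN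
  rw [Finset.card_product] at hw
  have hv0 : (0 : ℝ) < V'.card := by exact_mod_cast hVne.card_pos
  have hx0 : (0 : ℝ) < X.card := by
    have : 0 < X.card := lt_of_lt_of_le hVne.card_pos (Finset.card_le_card hV)
    exact_mod_cast this
  have hC : 0 ≤ C := by
    by_contra hlt
    push Not at hlt
    have h5 : C * (X.card : ℝ) < 0 := mul_neg_of_neg_of_pos hlt hx0
    have h6 : (0 : ℝ) ≤ Z.card := Nat.cast_nonneg _
    linarith
  have h3 : (Q.card : ℝ) * V'.card ≤ (2 * C * N) * V'.card := by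
    calc (Q.card : ℝ) * V'.card ≤ ((Z.image Hg.u).card : ℝ) * N := by exact_mod_cast hw
      _ ≤ (Z.card : ℝ) * N := by
          have : ((Z.image Hg.u).card : ℝ) ≤ Z.card := by exact_mod_cast Finset.card_image_le
          exact mul_le_mul_of_nonneg_right this (Nat.cast_nonneg _)
      _ ≤ (C * X.card) * N := mul_le_mul_of_nonneg_right hcard (Nat.cast_nonneg _)
      _ ≤ (C * (2 * V'.card)) * N := by
          have : (X.card : ℝ) ≤ 2 * V'.card := by exact_mod_cast h2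
          exact mul_le_mul_of_nonneg_right (mul_le_mul_of_nonneg_left this hC) (Nat.cast_nonneg _)
      _ = (2 * C * N) * V'.card := by ring
  exact le_of_mul_le_mul_right h3 hv0

end Pool.Agent.QQ95
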