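import Pool.Agent.Lib.MP_95b053_co.Q.Gauge

/-!
# The scalars of step 2
-/

set_option autoImplicit false

namespace Pool.Agent.QQ95

open Finset

/-- The counting part of step 2. -/
theorem count2 {P : Finset (ℝ × ℝ)} {Θ Θ' : Finset (Fin 6 → ℝ × ℝ)} (hG : Good P Θ)
    (hsub : Θ' ⊆ Θ) (hP : P.Nonempty) : ∃ x0 z0 : ℝ × ℝ, ∃ E : Finset ((ℝ × ℝ) × (ℝ × ℝ)),
      E ⊆ P ×ˢ P ∧ Θ'.card ^ 2 ≤ P.card ^ 4 * E.card ∧
      ∀ e ∈ E, ∃ t ∈ Θ', ∃ t' ∈ Θ', t 1 = e.1 ∧ t 2 = e.2 ∧ t 3 = x0 ∧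
        t' 1 = e.1 ∧ t' 2 = e.2 ∧ t' 5 = z0 := by
  classical
  set f : (Fin 6 → ℝ × ℝ) → (ℝ × ℝ) × (ℝ × ℝ) := fun t => (t 1, t 2) with hf
  set S1 := (Θ' ×ˢ Θ').filter fun q => f q.1 = f q.2 with hS1
  have h1 : Θ'.card ^ 2 ≤ (P ×ˢ P).card * S1.card := by
    apply cs_pairs
    intro t ht
    exact Finset.mem_product.2 ⟨hG.mem t (hsub ht) 1, hG.mem t (hsub ht) 2⟩
  obtain ⟨⟨x0, z0⟩, _, h3⟩ := pigeon S1 (fun q => (q.1 3, q.2 5)) (P ×ˢ P) (by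
    intro q hq
    have hq' := Finset.mem_product.1 (Finset.mem_filter.1 hq).1
    exact Finset.mem_product.2 ⟨hG.mem _ (hsub hq'.1) 3, hG.mem _ (hsub hq'.2) 5⟩)
    (hP.product hP)
  set S3 := S1.filter fun q => (q.1 3, q.2 5) = (x0, z0) with hS3
  have hdata : ∀ q ∈ S3, q.1 ∈ Θ' ∧ q.2 ∈ Θ' ∧ q.2 1 = q.1 1 ∧ q.2 2 = q.1 2 ∧
      q.1 3 = x0 ∧ q.2 5 = z0 := by
    intro q hq
    obtain ⟨hq1, hq2⟩ := Finset.mem_filter.1 hq
    obtain ⟨hq3, hq4⟩ := Finset.mem_filter.1 hq1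
    obtain ⟨m1, m2⟩ := Finset.mem_product.1 hq3
    simp only [hf, Prod.mk.injEq] at hq2 hq4
    exact ⟨m1, m2, hq4.1.symm, hq4.2.symm, hq2.1, hq2.2⟩
  have hinj : Set.InjOn (fun q : (Fin 6 → ℝ × ℝ) × (Fin 6 → ℝ × ℝ) => (q.1 1, q.1 2))
      (S3 : Set _) := by
    rintro ⟨t, t'⟩ hq ⟨u, u'⟩ hr he
    simp only [Prod.mk.injEq] at he
    have A := hdata _ (Finset.mem_coe.1 hq)
    have B := hdata _ (Finset.mem_coe.1 hr)
    simp only at A B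
    obtain ⟨a1, a2, a3, a4, a5, a6⟩ := A
    obtain ⟨b1, b2, b3, b4, b5, b6⟩ := B
    have e1 : t = u := hG.ext (hsub a1) (hsub b1)
      (hG.f4 t (hsub a1) u (hsub b1) he.1 (by rw [a5, b5])) he.1 he.2
    have e2 : t' = u' := hG.ext (hsub a2) (hsub b2)
      (hG.f5 t' (hsub a2) u' (hsub b2) (by rw [a4, b4, he.2]) (by rw [a6, b6]))
      (by rw [a3, b3, he.1]) (by rw [a4, b4, he.2])
    rw [e1, e2]
  refine ⟨x0, z0, S3.image fun q => (q.1 1, q.1 2), ?_, ?_, ?_⟩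
  · intro e he
    obtain ⟨q, hq, rfl⟩ := Finset.mem_image.1 he
    have := hdata q hq
    exact Finset.mem_product.2 ⟨hG.mem _ (hsub this.1) 1, hG.mem _ (hsub this.1) 2⟩
  · rw [Finset.card_image_of_injOn hinj]
    rw [Finset.card_product] at h1 h3
    calc Θ'.card ^ 2 ≤ P.card * P.card * S1.card := h1
      _ ≤ P.card * P.card * (P.card * P.card * S3.card) := Nat.mul_le_mul_left _ h3
      _ = P.card ^ 4 * S3.card := by ring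
  · intro e he
    obtain ⟨q, hq, rfl⟩ := Finset.mem_image.1 he
    obtain ⟨a1, a2, a3, a4, a5, a6⟩ := hdata q hq
    exact ⟨q.1, a1, q.2, a2, rfl, rfl, a5, a3, a4, a6⟩

/-- **Step 2.** The differences of the gauges are rank one in two ways. -/
theorem step2 {P : Finset (ℝ × ℝ)} {Θ : Finset (Fin 6 → ℝ × ℝ)} (hG : Good P Θ)
    (hP : P.Nonempty) : ∃ vB wC : ℝ × ℝ → ℝ × ℝ × ℝ,
      (∀ p, Sim (vB p) (lf p)) ∧ (∀ p, Sim (wC p) (lf p)) ∧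
      ∃ al de R R' : ℝ × ℝ → ℝ, (∀ p, al p ≠ 0) ∧ (∀ p, de p ≠ 0) ∧ (∀ p, R p ≠ 0) ∧
        (∀ p, R' p ≠ 0) ∧ ∃ E ⊆ P ×ˢ P, Θ.card ^ 8 ≤ P.card ^ 22 * E.card ∧
          ∀ e ∈ E, ∃ y ∈ P, vB e.1 - wC e.2 = (de e.2 * R' y) • lf y ∧
            al e.1 * R y = de e.2 * R' y := by
  classical
  obtain ⟨vA, vB, wC, hvA, hvB, hwC, Θ', hsub, hcard, hΘ'⟩ := step1 hG hP
  obtain ⟨x0, z0, E, hE, hEcard, hEd⟩ := count2 hG hsub hP
  obtain ⟨al, hal, hal'⟩ := scal {t | t ∈ Θ' ∧ t 3 = x0} (fun t : Fin 6 → ℝ × ℝ => t 1)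
    (fun t r => vA (t 0) - vB (t 1) = r • lf x0)
    (by
      rintro t ⟨ht, h3⟩ t' ⟨ht', h3'⟩ h1
      have h0 : t 0 = t' 0 := hG.f4 t (hsub ht) t' (hsub ht') h1 (by rw [h3, h3'])
      simp only [h0, h1])
    (by
      rintro t ⟨ht, h3⟩
      obtain ⟨r, hr, hr'⟩ := (hΘ' t ht).1
      rw [h3] at hr'
      exact ⟨r, hr, hr'⟩)
  obtain ⟨de, hde, hde'⟩ := scal {t | t ∈ Θ' ∧ t 5 = z0} (fun t : Fin 6 → ℝ × ℝ => t 2)
    (fun t r => vA (t 0) - wC (t 2) = r • lf z0)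
    (by
      rintro t ⟨ht, h3⟩ t' ⟨ht', h3'⟩ h1
      have h0 : t 0 = t' 0 := hG.f5 t (hsub ht) t' (hsub ht') h1 (by rw [h3, h3'])
      simp only [h0, h1])
    (by
      rintro t ⟨ht, h3⟩
      obtain ⟨r, hr, hr'⟩ := (hΘ' t ht).2.2
      rw [h3] at hr'
      exact ⟨r, hr, hr'⟩)
  obtain ⟨R, hR, hR'⟩ := scal {t | t ∈ Θ' ∧ t 3 = x0} (fun t : Fin 6 → ℝ × ℝ => t 4)
    (fun t r => ∃ m l : ℝ, m ≠ 0 ∧ l ≠ 0 ∧ lf (t 5) = m • lf x0 + l • lf (t 4) ∧ r = l / m)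
    (by
      rintro t ⟨ht, h3⟩ t' ⟨ht', h3'⟩ h1
      have h0 : t 5 = t' 5 := hG.f6 t (hsub ht) t' (hsub ht') (by rw [h3, h3']) h1
      simp only [h0, h1])
    (by
      rintro t ⟨ht, h3⟩
      obtain ⟨_, m, l, hm, hl, h⟩ := hG.c4 t (hsub ht)
      rw [h3] at h
      exact ⟨l / m, div_ne_zero hl hm, m, l, hm, hl, h, rfl⟩)
  obtain ⟨R₂, hR₂, hR₂'⟩ := scal {t | t ∈ Θ' ∧ t 5 = z0} (fun t : Fin 6 → ℝ × ℝ => t 4)
    (fun t r => ∃ m l : ℝ, m ≠ 0 ∧ l ≠ 0 ∧ lf (t 3) = m • lf z0 + l • lf (t 4) ∧ r = -(l / m))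
    (by
      rintro t ⟨ht, h3⟩ t' ⟨ht', h3'⟩ h1
      have h0 : t 3 = t' 3 := hG.f7 t (hsub ht) t' (hsub ht') h1 (by rw [h3, h3'])
      simp only [h0, h1])
    (by
      rintro t ⟨ht, h3⟩
      obtain ⟨_, m, l, hm, hl, h⟩ := (hG.c4 t (hsub ht)).swap.rot.swap
      rw [h3] at h
      exact ⟨-(l / m), neg_ne_zero.2 (div_ne_zero hl hm), m, l, hm, hl, h, rfl⟩)
  refine ⟨vB, wC, hvB, hwC, al, de, R, R₂, hal, hde, hR, hR₂, E, hE, ?_, ?_⟩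
  · calc Θ.card ^ 8 = (Θ.card ^ 4) ^ 2 := by ring
      _ ≤ (P.card ^ 9 * Θ'.card) ^ 2 := Nat.pow_le_pow_left hcard 2
      _ = P.card ^ 18 * Θ'.card ^ 2 := by ring
      _ ≤ P.card ^ 18 * (P.card ^ 4 * E.card) := Nat.mul_le_mul_left _ hEcard
      _ = P.card ^ 22 * E.card := by ring
  · intro e he
    obtain ⟨t, ht, t', ht', h1, h2, h3, h1', h2', h5'⟩ := hEd e he
    have hy : t 4 = t' 4 := hG.f2 t (hsub ht) t' (hsub ht') (by rw [h1, h1']) (by rw [h2, h2'])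
    -- first representation
    have E1 : vA (t 0) - vB (t 1) = al (t 1) • lf x0 := hal' t ⟨ht, h3⟩
    obtain ⟨m, l, hm, hl, hz, hRe⟩ := hR' t ⟨ht, h3⟩
    obtain ⟨_, ⟨γ, hγ, E2⟩, ⟨δ, hδ, E3⟩⟩ := hΘ' t ht
    have hne : x0 ≠ t 4 := by
      have := (hG.c4 t (hsub ht)).1
      rwa [h3] at this
    have hlin : (al (t 1) - δ * m) • lf x0 + (γ - δ * l) • lf (t 4) = 0 := by
      have h6 : (vA (t 0) - vB (t 1)) + (vB (t 1) - wC (t 2)) - (vA (t 0) - wC (t 2)) = 0 := by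
        abel
      rw [E1, E2, E3, hz] at h6
      rw [← h6]
      module
    obtain ⟨k1, k2⟩ := lf_indep hne hlin
    have hγ' : γ = al (t 1) * R (t 4) := by
      rw [hRe]
      field_simp
      have e1 : al (t 1) = δ * m := by linarith
      have e2 : γ = δ * l := by linarith
      rw [e1, e2]
      ring
    -- second representation
    have E1' : vA (t' 0) - wC (t' 2) = de (t' 2) • lf z0 := hde' t' ⟨ht', h5'⟩
    obtain ⟨m', l', hm', hl', hx, hRe'⟩ := hR₂' t' ⟨ht', h5'⟩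
    obtain ⟨⟨α, hα, E2'⟩, ⟨γ', hγ'0, E3'⟩, _⟩ := hΘ' t' ht'
    have hne' : z0 ≠ t' 4 := by
      have := (hG.c4 t' (hsub ht')).swap.rot.1
      rw [h5'] at this
      exact this.symm
    have hlin' : (α * m' - de (t' 2)) • lf z0 + (α * l' + γ') • lf (t' 4) = 0 := by
      have h6 : (vA (t' 0) - vB (t' 1)) + (vB (t' 1) - wC (t' 2)) -
          (vA (t' 0) - wC (t' 2)) = 0 := by
        abel
      rw [E1', E2', E3', hx] at h6
      rw [← h6]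
      module
    obtain ⟨k1', k2'⟩ := lf_indep hne' hlin'
    have hγ'' : γ' = de (t' 2) * R₂ (t' 4) := by
      rw [hRe']
      have e1 : de (t' 2) = α * m' := by linarith
      have e2 : γ' = -(α * l') := by linarith
      rw [e1, e2]
      field_simp
    have hsame : γ • lf (t 4) = γ' • lf (t 4) := by
      rw [← E2, hy, ← E3', h1, h2, h1', h2']
    have hγγ : γ = γ' := by
      have : (γ - γ') • lf (t 4) = 0 := by rw [sub_smul, hsame, sub_self]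
      have := (smul_eq_zero.1 this).resolve_right lf_ne
      linarith
    refine ⟨t 4, hG.mem t (hsub ht) 4, ?_, ?_⟩
    · rw [← h1, ← h2, E2, hγγ, hγ'', ← hy, h2', ← h2]
    · rw [← h1, ← hγ', hγγ, hγ'', ← hy, h2']

end Pool.Agent.QQ95
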