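import Pool.Agent.Lib.MP_95b053_co.Q.Fin

/-!
# Complete quadrilaterals: the main theorem and the corollary
-/

set_option autoImplicit false

namespace Pool.Agent.QQ95

open Finset

/-- A line with the maximal number of points. -/
theorem exists_max_line (P : Finset (ℝ × ℝ)) (hP : 2 ≤ P.card) :
    ∃ L0 : AffineSubspace ℝ (ℝ × ℝ), Module.finrank ℝ L0.direction = 1 ∧
      2 ≤ ((P : Set (ℝ × ℝ)) ∩ (L0 : Set (ℝ × ℝ))).ncard ∧
      ∀ L : AffineSubspace ℝ (ℝ × ℝ), Module.finrank ℝ L.direction = 1 →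
        ((P : Set (ℝ × ℝ)) ∩ (L : Set (ℝ × ℝ))).ncard ≤
          ((P : Set (ℝ × ℝ)) ∩ (L0 : Set (ℝ × ℝ))).ncard := by
  obtain ⟨L2, hL2d, hL2⟩ := Pool.Agent.RR95.rTwo P hP
  have hbd : ∀ L : AffineSubspace ℝ (ℝ × ℝ),
      ((P : Set (ℝ × ℝ)) ∩ (L : Set (ℝ × ℝ))).ncard ≤ P.card := by
    intro L
    have h := Set.ncard_le_ncard (s := (P : Set (ℝ × ℝ)) ∩ (L : Set (ℝ × ℝ)))
      (t := (P : Set (ℝ × ℝ))) Set.inter_subset_left P.finite_toSet
    rwa [Set.ncard_coe_finset] at h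
  set S : Set ℕ := (fun L : AffineSubspace ℝ (ℝ × ℝ) =>
    ((P : Set (ℝ × ℝ)) ∩ (L : Set (ℝ × ℝ))).ncard) '' {L | Module.finrank ℝ L.direction = 1} with hS
  have hSne : S.Nonempty := ⟨_, L2, hL2d, rfl⟩
  have hSbdd : BddAbove S := by
    refine ⟨P.card, ?_⟩
    rintro _ ⟨L, _, rfl⟩
    exact hbd L
  obtain ⟨L0, hL0d, hL0⟩ := Nat.sSup_mem hSne hSbdd
  have hmax : ∀ L : AffineSubspace ℝ (ℝ × ℝ), Module.finrank ℝ L.direction = 1 →
      ((P : Set (ℝ × ℝ)) ∩ (L : Set (ℝ × ℝ))).ncard ≤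
        ((P : Set (ℝ × ℝ)) ∩ (L0 : Set (ℝ × ℝ))).ncard := by
    intro L hL
    have h1 : ((P : Set (ℝ × ℝ)) ∩ (L : Set (ℝ × ℝ))).ncard ≤ sSup S :=
      le_csSup hSbdd ⟨L, hL, rfl⟩
    exact h1.trans hL0.ge
  exact ⟨L0, hL0d, hL2.trans (hmax L2 hL2d), hmax⟩

/-- The main theorem. -/
theorem mainQ (hAP : Pool.Agent.RR95.S_AP) (P : Finset (ℝ × ℝ)) (T : Finset (Finset (ℝ × ℝ)))
    (k : ℕ) (c : ℝ) (hP : 2 ≤ P.card) (hc : 0 < c) (hc1 : c ≤ 1)
    (hT : ∀ t ∈ T, t ⊆ P ∧ t.card = 3 ∧ Collinear ℝ (t : Set (ℝ × ℝ)))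
    (hk : ∀ p q : ℝ × ℝ, p ≠ q → (T.filter fun t => p ∈ t ∧ q ∈ t).card ≤ k)
    (hq : c * (P.card : ℝ) ^ 3 ≤ ({q : Fin 6 → ℝ × ℝ | Quad T q}.ncard : ℝ)) :
    ∃ L : AffineSubspace ℝ (ℝ × ℝ), Module.finrank ℝ L.direction = 1 ∧
      (P.card : ℝ) ^ ((c / (2 * k)) ^ 170000) ≤
        (((P : Set (ℝ × ℝ)) ∩ (L : Set (ℝ × ℝ))).ncard : ℝ) := by
  classical
  obtain ⟨L0, hL0, h2, hmax⟩ := exists_max_line P hP
  refine ⟨L0, hL0, ?_⟩
  have hPne : P.Nonempty := Finset.card_pos.1 (by omega)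
  have hn0 : (0 : ℝ) < P.card := by exact_mod_cast hPne.card_pos
  -- the finite set of quadrilaterals
  have hfin : {q : Fin 6 → ℝ × ℝ | Quad T q}.Finite := by
    apply (Fintype.piFinset fun _ : Fin 6 => P).finite_toSet.subset
    intro q hq
    rw [Finset.mem_coe, Fintype.mem_piFinset]
    intro i
    have m1 := (hT _ hq.2.1).1
    have m2 := (hT _ hq.2.2.1).1
    have m3 := (hT _ hq.2.2.2.1).1
    fin_cases i
    · exact m1 (by simp)
    · exact m1 (by simp)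
    · exact m2 (by simp)
    · exact m1 (by simp)
    · exact m2 (by simp)
    · exact m3 (by simp)
  rw [Set.ncard_eq_toFinset_card _ hfin] at hq
  obtain ⟨Θ, hcard, hG⟩ := picks P T k hT hk hfin.toFinset (by
    intro q hq
    exact (Set.Finite.mem_toFinset hfin).1 hq)
  have hk0 : k ≠ 0 := by
    rintro rfl
    rw [zero_pow (by norm_num), zero_mul, Nat.le_zero] at hcard
    rw [hcard, Nat.cast_zero] at hq
    have : 0 < c * (P.card : ℝ) ^ 3 := by positivity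
    linarith
  have hk1 : (1 : ℝ) ≤ k := by exact_mod_cast Nat.one_le_iff_ne_zero.2 hk0
  have hk0' : (0 : ℝ) < k := by linarith
  set u : ℝ := 2 * k / c with hu
  have hu2 : 2 ≤ u := by
    rw [hu, le_div_iff₀ hc]
    nlinarith
  have hu0 : 0 < u := by linarith
  have hu1 : 1 ≤ u := by linarith
  have hexp : c / (2 * k) = u⁻¹ := by rw [hu, inv_div]
  rw [hexp]
  set η : ℝ := c / k ^ 7 with hη
  have hη0 : 0 < η := by positivity
  have hηu : (u ^ 7)⁻¹ ≤ η := by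
    rw [hη, hu, div_pow, inv_div, mul_pow, div_le_div_iff₀ (by positivity) (by positivity)]
    have h3 : c ^ 7 ≤ c := by
      calc c ^ 7 ≤ c ^ 1 := pow_le_pow_of_le_one hc.le hc1 (by norm_num)
        _ = c := pow_one c
    have h4 : (0 : ℝ) ≤ (k : ℝ) ^ 7 := by positivity
    nlinarith
  have hΘ : η * (P.card : ℝ) ^ 3 ≤ Θ.card := by
    have h3 : ((hfin.toFinset.card : ℕ) : ℝ) ≤ (k : ℝ) ^ 7 * Θ.card := by exact_mod_cast hcard
    rw [hη, div_mul_eq_mul_div, div_le_iff₀ (by positivity)]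
    linarith
  set α : ℝ := η ^ 8 / 4 with hα
  have hα0 : 0 < α := by positivity
  have hαu : (u ^ 58)⁻¹ ≤ α := by
    have h3 : ((u ^ 7)⁻¹) ^ 8 ≤ η ^ 8 := pow_le_pow_left₀ (by positivity) hηu 8
    have h4 : (u ^ 58)⁻¹ ≤ ((u ^ 7)⁻¹) ^ 8 / 4 := by
      rw [inv_pow, ← pow_mul, div_eq_mul_inv, ← mul_inv]
      apply inv_anti₀ (by positivity)
      have h5 : (4 : ℝ) ≤ u ^ 2 := by nlinarith
      calc u ^ (7 * 8) * 4 ≤ u ^ (7 * 8) * u ^ 2 := mul_le_mul_of_nonneg_left h5 (by positivity)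
        _ = u ^ 58 := by rw [← pow_add]
    rw [hα]
    linarith
  have hKα : (2 : ℝ) ^ 18 ≤ u ^ 366 * α ^ 6 := by
    have h3 : ((u ^ 58)⁻¹) ^ 6 ≤ α ^ 6 := pow_le_pow_left₀ (by positivity) hαu 6
    have h4 : u ^ 366 * ((u ^ 58)⁻¹) ^ 6 = u ^ 18 := by
      rw [inv_pow, ← pow_mul, show (366 : ℕ) = 18 + 58 * 6 by norm_num, pow_add]
      field_simp
    calc (2 : ℝ) ^ 18 ≤ u ^ 18 := pow_le_pow_left₀ (by norm_num) hu2 18
      _ = u ^ 366 * ((u ^ 58)⁻¹) ^ 6 := h4.symm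
      _ ≤ u ^ 366 * α ^ 6 := mul_le_mul_of_nonneg_left h3 (by positivity)
  have hK1 : (1 : ℝ) ≤ u ^ 366 := one_le_pow₀ hu1
  obtain ⟨ρ, hρdef⟩ : ∃ ρ : ℕ, ρ = ⌈5408 * (2 * u ^ 366 * (2 * (u ^ 366) ^ 2) ^ 9) ^ 24⌉₊ :=
    ⟨_, rfl⟩
  have hρ1 : 5408 * (2 * u ^ 366 * (2 * (u ^ 366) ^ 2) ^ 9) ^ 24 ≤ (ρ : ℝ) := by
    rw [hρdef]
    exact Nat.le_ceil _
  have hρ2 : (ρ : ℝ) ≤ u ^ 167149 := by
    have h3 : (ρ : ℝ) < 5408 * (2 * u ^ 366 * (2 * (u ^ 366) ^ 2) ^ 9) ^ 24 + 1 := by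
      rw [hρdef]
      exact Nat.ceil_lt_add_one (by positivity)
    have h4 : (2 * u ^ 366 * (2 * (u ^ 366) ^ 2) ^ 9) ^ 24 ≤ u ^ 167136 := by
      have h5 : 2 * u ^ 366 * (2 * (u ^ 366) ^ 2) ^ 9 = 2 ^ 10 * u ^ 6954 := by
        rw [mul_pow, ← pow_mul, ← pow_mul]
        ring
      have h6 : 2 ^ 10 * u ^ 6954 ≤ u ^ 6964 := by
        calc 2 ^ 10 * u ^ 6954 ≤ u ^ 10 * u ^ 6954 :=
              mul_le_mul_of_nonneg_right (pow_le_pow_left₀ (by norm_num) hu2 10) (by positivity)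
          _ = u ^ 6964 := by rw [← pow_add]
      rw [h5]
      calc (2 ^ 10 * u ^ 6954) ^ 24 ≤ (u ^ 6964) ^ 24 := pow_le_pow_left₀ (by positivity) h6 24
        _ = u ^ 167136 := by rw [← pow_mul]
    have h7 : (1 : ℝ) ≤ u ^ 167136 := one_le_pow₀ hu1
    have h8 : (5409 : ℝ) ≤ u ^ 13 := by
      calc (5409 : ℝ) ≤ 2 ^ 13 := by norm_num
        _ ≤ u ^ 13 := pow_le_pow_left₀ (by norm_num) hu2 13
    calc (ρ : ℝ) ≤ 5408 * (2 * u ^ 366 * (2 * (u ^ 366) ^ 2) ^ 9) ^ 24 + 1 := h3.le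
      _ ≤ 5409 * u ^ 167136 := by linarith
      _ ≤ u ^ 13 * u ^ 167136 := mul_le_mul_of_nonneg_right h8 (by positivity)
      _ = u ^ 167149 := by rw [← pow_add]
  set r : ℝ := (((P : Set (ℝ × ℝ)) ∩ (L0 : Set (ℝ × ℝ))).ncard : ℝ) with hr
  have hr2 : (2 : ℝ) ≤ r := by
    rw [hr]
    exact_mod_cast h2
  have hmid := mid hAP hG hPne η α (u ^ 366) r ρ hη0 (by rw [hα]; ring) hΘ (by linarith) hKα hK1
    hρ1 (by
      intro L hL
      rw [hr]
      exact_mod_cast hmax L hL)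
  apply numQ (P.card : ℝ) r u ρ hu2 hr2 hρ2 hn0.le
  have h3 : 8 * (2 * (u ^ 366) ^ 2) ^ 16 ≤ u ^ 11731 := by
    have h5 : 8 * (2 * (u ^ 366) ^ 2) ^ 16 = 2 ^ 19 * u ^ 11712 := by
      rw [mul_pow, ← pow_mul, ← pow_mul]
      ring
    rw [h5]
    calc 2 ^ 19 * u ^ 11712 ≤ u ^ 19 * u ^ 11712 :=
          mul_le_mul_of_nonneg_right (pow_le_pow_left₀ (by norm_num) hu2 19) (by positivity)
      _ = u ^ 11731 := by rw [← pow_add]
  have h4 : ((8 * (2 * (u ^ 366) ^ 2) ^ 16 * r) ^ ρ) ^ 2 ≤ ((u ^ 11731 * r) ^ ρ) ^ 2 := by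
    apply pow_le_pow_left₀ (by positivity)
    apply pow_le_pow_left₀ (by positivity)
    exact mul_le_mul_of_nonneg_right h3 (by linarith)
  have h5 : α / 4 * P.card ≤ ((u ^ 11731 * r) ^ ρ) ^ 2 := hmid.trans h4
  have h6 : (u ^ 60)⁻¹ ≤ α / 4 := by
    have h7 : (u ^ 60)⁻¹ ≤ (u ^ 58)⁻¹ / 4 := by
      rw [div_eq_mul_inv, ← mul_inv]
      apply inv_anti₀ (by positivity)
      have h8 : (4 : ℝ) ≤ u ^ 2 := by nlinarith
      calc u ^ 58 * 4 ≤ u ^ 58 * u ^ 2 := mul_le_mul_of_nonneg_left h8 (by positivity)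
        _ = u ^ 60 := by rw [← pow_add]
    linarith
  have h9 : (u ^ 60)⁻¹ * P.card ≤ ((u ^ 11731 * r) ^ ρ) ^ 2 :=
    (mul_le_mul_of_nonneg_right h6 hn0.le).trans h5
  rwa [inv_mul_le_iff₀ (by positivity)] at h9

/-- the complete quadrilaterals of a set of points -/
def QuadP (P : Finset (ℝ × ℝ)) (q : Fin 6 → ℝ × ℝ) : Prop :=
  (∀ i, q i ∈ P) ∧ Function.Injective q ∧ ¬ Collinear ℝ {q 0, q 1, q 2} ∧
    Collinear ℝ {q 0, q 1, q 3} ∧ Collinear ℝ {q 1, q 2, q 4} ∧ Collinear ℝ {q 2, q 0, q 5} ∧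
    Collinear ℝ {q 3, q 4, q 5}

/-- The corollary. -/
theorem corQ (hAP : Pool.Agent.RR95.S_AP) (P : Finset (ℝ × ℝ)) (c : ℝ) (hP : 2 ≤ P.card)
    (hc : 0 < c) (hc1 : c ≤ 1)
    (hq : c * (P.card : ℝ) ^ 3 ≤ ({q : Fin 6 → ℝ × ℝ | QuadP P q}.ncard : ℝ)) :
    ∃ L : AffineSubspace ℝ (ℝ × ℝ), Module.finrank ℝ L.direction = 1 ∧
      c / 2 * (Real.log P.card) ^ ((1 : ℝ) / 170001) ≤
        (((P : Set (ℝ × ℝ)) ∩ (L : Set (ℝ × ℝ))).ncard : ℝ) := by
  classical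
  obtain ⟨L0, hL0, h2, hmax⟩ := exists_max_line P hP
  refine ⟨L0, hL0, ?_⟩
  set M : ℕ := ((P : Set (ℝ × ℝ)) ∩ (L0 : Set (ℝ × ℝ))).ncard with hM
  set T : Finset (Finset (ℝ × ℝ)) :=
    (P.powersetCard 3).filter fun t => Collinear ℝ (t : Set (ℝ × ℝ)) with hT
  have hTd : ∀ t ∈ T, t ⊆ P ∧ t.card = 3 ∧ Collinear ℝ (t : Set (ℝ × ℝ)) := by
    intro t ht
    obtain ⟨h3, h4⟩ := Finset.mem_filter.1 ht
    obtain ⟨h5, h6⟩ := Finset.mem_powersetCard.1 h3
    exact ⟨h5, h6, h4⟩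
  have hk : ∀ p q : ℝ × ℝ, p ≠ q → (T.filter fun t => p ∈ t ∧ q ∈ t).card ≤ M := by
    intro p q hpq
    refine le_trans ?_ (hmax (line[ℝ, p, q]) (back_rank p q hpq))
    have hfin : ((P : Set (ℝ × ℝ)) ∩ ((line[ℝ, p, q] : AffineSubspace ℝ (ℝ × ℝ)) :
        Set (ℝ × ℝ))).Finite := (Finset.finite_toSet P).subset Set.inter_subset_left
    rw [Set.ncard_eq_toFinset_card _ hfin]
    have hsub : (T.filter fun t => p ∈ t ∧ q ∈ t) ⊆
        hfin.toFinset.image fun v => ({p, q, v} : Finset (ℝ × ℝ)) := by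
      intro t ht
      obtain ⟨h3, hp, hq'⟩ := Finset.mem_filter.1 ht
      obtain ⟨h4, h5, h6⟩ := hTd t h3
      have h7 : ((t.erase p).erase q).card = 1 := by
        rw [Finset.card_erase_of_mem (Finset.mem_erase.2 ⟨hpq.symm, hq'⟩),
          Finset.card_erase_of_mem hp, h5]
      obtain ⟨v, hv⟩ := Finset.card_eq_one.1 h7
      have hvt : v ∈ (t.erase p).erase q := by rw [hv]; simp
      have hvq := Finset.mem_erase.1 hvt
      have hvp := Finset.mem_erase.1 hvq.2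
      have hte : t = {p, q, v} := by
        rw [← Finset.insert_erase hp]
        congr 1
        rw [← Finset.insert_erase (Finset.mem_erase.2 ⟨hpq.symm, hq'⟩), hv]
      refine Finset.mem_image.2 ⟨v, ?_, hte.symm⟩
      rw [Set.Finite.mem_toFinset]
      refine ⟨Finset.mem_coe.2 (h4 hvp.2), ?_⟩
      have h8 : Collinear ℝ {p, q, v} := by
        rw [hte, Finset.coe_insert, Finset.coe_insert, Finset.coe_singleton] at h6
        exact h6
      exact h8.mem_affineSpan_of_mem_of_ne (p₁ := p) (p₂ := q) (p₃ := v) (by simp) (by simp)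
        (by simp) hpq
    exact (Finset.card_le_card hsub).trans Finset.card_image_le
  have hsubset : {q : Fin 6 → ℝ × ℝ | QuadP P q} ⊆ {q | Quad T q} := by
    rintro q ⟨h3, h4, h5, h6, h7, h8, h9⟩
    have hmem : ∀ i j l : Fin 6, i ≠ j → i ≠ l → j ≠ l → Collinear ℝ {q i, q j, q l} →
        ({q i, q j, q l} : Finset (ℝ × ℝ)) ∈ T := by
      intro i j l hij hil hjl hcol
      refine Finset.mem_filter.2 ⟨Finset.mem_powersetCard.2 ⟨?_, ?_⟩, ?_⟩
      · intro x hx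
        simp only [Finset.mem_insert, Finset.mem_singleton] at hx
        rcases hx with rfl | rfl | rfl
        · exact h3 i
        · exact h3 j
        · exact h3 l
      · exact Finset.card_eq_three.2 ⟨q i, q j, q l, fun h => hij (h4 h), fun h => hil (h4 h),
          fun h => hjl (h4 h), rfl⟩
      · rw [Finset.coe_insert, Finset.coe_insert, Finset.coe_singleton]
        exact hcol
    exact ⟨h5, hmem 0 1 3 (by decide) (by decide) (by decide) h6,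
      hmem 1 2 4 (by decide) (by decide) (by decide) h7,
      hmem 2 0 5 (by decide) (by decide) (by decide) h8,
      hmem 3 4 5 (by decide) (by decide) (by decide) h9⟩
  have hfinT : {q : Fin 6 → ℝ × ℝ | Quad T q}.Finite := by
    apply (Fintype.piFinset fun _ : Fin 6 => P).finite_toSet.subset
    intro q hq
    rw [Finset.mem_coe, Fintype.mem_piFinset]
    intro i
    have m1 := (hTd _ hq.2.1).1
    have m2 := (hTd _ hq.2.2.1).1
    have m3 := (hTd _ hq.2.2.2.1).1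
    fin_cases i
    · exact m1 (by simp)
    · exact m1 (by simp)
    · exact m2 (by simp)
    · exact m1 (by simp)
    · exact m2 (by simp)
    · exact m3 (by simp)
  have hq' : c * (P.card : ℝ) ^ 3 ≤ ({q : Fin 6 → ℝ × ℝ | Quad T q}.ncard : ℝ) := by
    refine hq.trans ?_
    exact_mod_cast Set.ncard_le_ncard hsubset hfinT
  obtain ⟨L, hL, hbound⟩ := mainQ hAP P T M c hP hc hc1 hTd hk hq'
  have hM2 : (2 : ℝ) ≤ M := by exact_mod_cast h2
  have hM0 : (0 : ℝ) < M := by linarith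
  have hLM : (((P : Set (ℝ × ℝ)) ∩ (L : Set (ℝ × ℝ))).ncard : ℝ) ≤ M := by
    exact_mod_cast hmax L hL
  have hb := hbound.trans hLM
  have hn1 : (1 : ℝ) ≤ P.card := by
    have : 1 ≤ P.card := by omega
    exact_mod_cast this
  have hlog : (c / (2 * M)) ^ 170000 * Real.log P.card ≤ M := by
    have h3 : Real.log ((P.card : ℝ) ^ ((c / (2 * M)) ^ 170000)) ≤ Real.log M :=
      Real.log_le_log (by positivity) hb
    rw [Real.log_rpow (by linarith)] at h3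
    exact h3.trans (Real.log_le_self hM0.le)
  have hx : Real.log P.card ≤ (2 * M / c) ^ 170001 := by
    have h3 : (0 : ℝ) < (c / (2 * M)) ^ 170000 := by positivity
    have h4 : Real.log P.card ≤ M * (2 * M / c) ^ 170000 := by
      have h5 : (c / (2 * M)) ^ 170000 * (2 * M / c) ^ 170000 = 1 := by
        rw [← mul_pow]
        have : c / (2 * M) * (2 * M / c) = 1 := by
          field_simp
        rw [this, one_pow]
      calc Real.log P.card = ((c / (2 * M)) ^ 170000 * (2 * M / c) ^ 170000) * Real.log P.card := by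
            rw [h5, one_mul]
        _ = ((c / (2 * M)) ^ 170000 * Real.log P.card) * (2 * M / c) ^ 170000 := by ring
        _ ≤ M * (2 * M / c) ^ 170000 := mul_le_mul_of_nonneg_right hlog (by positivity)
    have h6 : (M : ℝ) ≤ 2 * M / c := by
      rw [le_div_iff₀ hc]
      nlinarith
    calc Real.log P.card ≤ M * (2 * M / c) ^ 170000 := h4
      _ ≤ (2 * M / c) * (2 * M / c) ^ 170000 := mul_le_mul_of_nonneg_right h6 (by positivity)
      _ = (2 * M / c) ^ 170001 := (pow_succ' _ _).symm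
  have hlog0 : 0 ≤ Real.log P.card := Real.log_nonneg hn1
  have hroot : (Real.log P.card) ^ ((1 : ℝ) / 170001) ≤ 2 * M / c := by
    have h3 : (Real.log P.card) ^ ((1 : ℝ) / 170001) ≤
        ((2 * M / c) ^ 170001) ^ ((1 : ℝ) / 170001) :=
      Real.rpow_le_rpow hlog0 hx (by positivity)
    refine h3.trans (le_of_eq ?_)
    have h4 : (0 : ℝ) ≤ 2 * M / c := by positivity
    have h5 := Real.pow_rpow_inv_natCast (n := 170001) h4 (by norm_num)
    rw [one_div]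
    exact_mod_cast h5
  calc c / 2 * (Real.log P.card) ^ ((1 : ℝ) / 170001) ≤ c / 2 * (2 * M / c) :=
        mul_le_mul_of_nonneg_left hroot (by positivity)
    _ = M := by field_simp

end Pool.Agent.QQ95
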