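import Pool.Agent.Lib.MP_95b053_co.Q.Dich
import Pool.Agent.Lib.MP_95b053_co.Q.BackQ
import Pool.Agent.Lib.MP_95b053_co.Q.Homoth
import Pool.Agent.Lib.MP_8dbdcc_co.Bsg

/-!
# From complete quadrilaterals to a bound for the number of points
-/

set_option autoImplicit false

namespace Pool.Agent.QQ95

open Finset
open scoped Pointwise

theorem sim_inj {w : ℝ × ℝ × ℝ} {p q : ℝ × ℝ} (hp : Sim w (lf p)) (hq : Sim w (lf q)) : p = q := by
  obtain ⟨a, ha, e⟩ := hp
  obtain ⟨b, hb, e'⟩ := hq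
  by_contra hne
  have h : a • lf p + (-b) • lf q = 0 := by
    rw [← e, neg_smul, ← e', add_neg_cancel]
  exact ha (lf_indep hne h).1

theorem half (hAP : Pool.Agent.RR95.S_AP) (P : Finset (ℝ × ℝ)) (F : ℝ × ℝ → Hg)
    (hF : ∀ p, Sim (F p).u (lf p)) (X : Finset Hg) (hX : X ⊆ P.image F) (hXne : X.Nonempty)
    (K r : ℝ) (ρ : ℕ) (hK1 : 1 ≤ K) (hr : 1 ≤ r) (hK : ((X⁻¹ * X).card : ℝ) ≤ K * X.card)
    (hρ : 5408 * (2 * K * (2 * K ^ 2) ^ 9) ^ 24 ≤ ρ)
    (hline : ∀ L : AffineSubspace ℝ (ℝ × ℝ), Module.finrank ℝ L.direction = 1 →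
      (((P : Set (ℝ × ℝ)) ∩ (L : Set (ℝ × ℝ))).ncard : ℝ) ≤ r) :
    Real.sqrt X.card ≤ (8 * (2 * K ^ 2) ^ 16 * r) ^ ρ := by
  classical
  refine dich hAP X K r ρ hXne hK1 hr ?_ hK hρ ?_
  · intro x hx x' hx' h
    obtain ⟨p, _, rfl⟩ := Finset.mem_image.1 (hX (Finset.mem_coe.1 hx))
    obtain ⟨q, _, rfl⟩ := Finset.mem_image.1 (hX (Finset.mem_coe.1 hx'))
    have h1 := hF p
    rw [h] at h1
    rw [sim_inj h1 (hF q)]
  · intro p v T hT hTl
    set T' := P.filter fun y => F y ∈ T with hT'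
    have hsub : T ⊆ T'.image F := by
      intro x hx
      obtain ⟨q, hq, rfl⟩ := Finset.mem_image.1 (hX (hT hx))
      exact Finset.mem_image.2 ⟨q, Finset.mem_filter.2 ⟨hq, hx⟩, rfl⟩
    have hcard : T.card ≤ T'.card := (Finset.card_le_card hsub).trans Finset.card_image_le
    obtain ⟨L, hL, hL'⟩ := backQ P T' (Finset.filter_subset _ _) (fun y => (F y).u)
      (fun y _ => hF y) p v (fun y hy => hTl _ (Finset.mem_filter.1 hy).2)
    have h1 : (T.card : ℝ) ≤ (((P : Set (ℝ × ℝ)) ∩ (L : Set (ℝ × ℝ))).ncard : ℝ) := by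
      exact_mod_cast hcard.trans hL'
    exact h1.trans (hline L hL)

theorem mid (hAP : Pool.Agent.RR95.S_AP) {P : Finset (ℝ × ℝ)} {Θ : Finset (Fin 6 → ℝ × ℝ)}
    (hG : Good P Θ) (hP : P.Nonempty) (η α K r : ℝ) (ρ : ℕ) (hη : 0 < η)
    (hα : 4 * α = η ^ 8) (hΘ : η * (P.card : ℝ) ^ 3 ≤ Θ.card) (hr : 1 ≤ r)
    (hKα : 2 ^ 18 ≤ K * α ^ 6) (hK1 : 1 ≤ K)
    (hρ : 5408 * (2 * K * (2 * K ^ 2) ^ 9) ^ 24 ≤ ρ)
    (hline : ∀ L : AffineSubspace ℝ (ℝ × ℝ), Module.finrank ℝ L.direction = 1 →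
      (((P : Set (ℝ × ℝ)) ∩ (L : Set (ℝ × ℝ))).ncard : ℝ) ≤ r) :
    α / 4 * P.card ≤ ((8 * (2 * K ^ 2) ^ 16 * r) ^ ρ) ^ 2 := by
  classical
  obtain ⟨vB, wC, hvB, hwC, al, de, R, R', hal, hde, hR, hR', E, hE, hEcard, hEd⟩ := step2 hG hP
  set n : ℝ := (P.card : ℝ) with hn
  have hn0 : 0 < n := by rw [hn]; exact_mod_cast hP.card_pos
  have hα0 : 0 < α := by
    have : 0 < η ^ 8 := by positivity
    linarith
  have hE2 : 4 * α * n ^ 2 ≤ E.card := by
    have h1 : ((Θ.card : ℝ)) ^ 8 ≤ n ^ 22 * E.card := by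
      rw [hn]
      exact_mod_cast hEcard
    have h2 : (η * n ^ 3) ^ 8 ≤ (Θ.card : ℝ) ^ 8 := pow_le_pow_left₀ (by positivity) hΘ 8
    have h3 : n ^ 22 * (4 * α * n ^ 2) ≤ n ^ 22 * E.card := by
      refine le_trans (le_of_eq ?_) (h2.trans h1)
      rw [hα]
      ring
    exact le_of_mul_le_mul_left h3 (by positivity)
  -- the homotheties
  set TB : ℝ × ℝ → Hg := fun p => ⟨Units.mk0 (al p) (hal p), vB p⟩ with hTB
  set TC : ℝ × ℝ → Hg := fun p => ⟨Units.mk0 (de p) (hde p), wC p⟩ with hTC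
  set hh : ℝ × ℝ → Hg := fun y => ⟨Units.mk0 (R' y / R y) (div_ne_zero (hR' y) (hR y)),
    R' y • lf y⟩ with hhh
  have hrel : ∀ e ∈ E, ∃ y ∈ P, (TC e.2)⁻¹ * TB e.1 = hh y := by
    intro e he
    obtain ⟨y, hy, h1, h2⟩ := hEd e he
    refine ⟨y, hy, ?_⟩
    have h3 : TB e.1 = TC e.2 * hh y := by
      apply Hg.ext
      · rw [Hg.mul_r]
        apply Units.ext
        simp only [hTB, hTC, hhh, Units.val_mul, Units.val_mk0]
        have := hR y
        field_simp
        linarith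
      · rw [Hg.mul_u]
        simp only [hTB, hTC, hhh, Units.val_mk0]
        rw [smul_smul, ← h1]
        abel
    rw [h3]
    group
  have hTBi : Function.Injective TB := by
    intro p q h
    have h1 : vB p = vB q := congrArg Hg.u h
    have h2 := hvB p
    rw [h1] at h2
    exact sim_inj h2 (hvB q)
  have hTCi : Function.Injective TC := by
    intro p q h
    have h1 : wC p = wC q := congrArg Hg.u h
    have h2 := hwC p
    rw [h1] at h2
    exact sim_inj h2 (hwC q)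
  set Y := P.image TB ∪ P.image TC with hY
  set D := P.image hh ∪ P.image (fun y => (hh y)⁻¹) with hD
  have hDsym : ∀ g ∈ D, g⁻¹ ∈ D := by
    intro g hg
    rcases Finset.mem_union.1 hg with h | h
    · obtain ⟨y, hy, rfl⟩ := Finset.mem_image.1 h
      exact Finset.mem_union_right _ (Finset.mem_image.2 ⟨y, hy, rfl⟩)
    · obtain ⟨y, hy, rfl⟩ := Finset.mem_image.1 h
      exact Finset.mem_union_left _ (Finset.mem_image.2 ⟨y, hy, by rw [inv_inv]⟩)
  have hDcard : (D.card : ℝ) ≤ 2 * n := by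
    have h1 : D.card ≤ P.card + P.card :=
      (Finset.card_union_le _ _).trans (add_le_add Finset.card_image_le Finset.card_image_le)
    have h2 : (D.card : ℝ) ≤ P.card + P.card := by exact_mod_cast h1
    rw [← hn] at h2
    linarith
  have hYcard : (Y.card : ℝ) ≤ 2 * n := by
    have h1 : Y.card ≤ P.card + P.card :=
      (Finset.card_union_le _ _).trans (add_le_add Finset.card_image_le Finset.card_image_le)
    have h2 : (Y.card : ℝ) ≤ P.card + P.card := by exact_mod_cast h1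
    rw [← hn] at h2
    linarith
  have hYn : n ≤ Y.card := by
    have h1 : P.card ≤ Y.card := by
      rw [← Finset.card_image_of_injective P hTBi]
      exact Finset.card_le_card Finset.subset_union_left
    rw [hn]
    exact_mod_cast h1
  have hYne : Y.Nonempty := (hP.image TB).mono Finset.subset_union_left
  have hpairs : α * (Y.card : ℝ) ^ 2 ≤
      (((Y ×ˢ Y).filter fun q => q.1⁻¹ * q.2 ∈ D).card : ℝ) := by
    have h1 : E.card ≤ ((Y ×ˢ Y).filter fun q => q.1⁻¹ * q.2 ∈ D).card := by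
      apply Finset.card_le_card_of_injOn (fun e : (ℝ × ℝ) × (ℝ × ℝ) => (TC e.2, TB e.1))
      · intro e he
        have he' := Finset.mem_product.1 (hE (Finset.mem_coe.1 he))
        obtain ⟨y, hy, h2⟩ := hrel e (Finset.mem_coe.1 he)
        refine Finset.mem_coe.2 (Finset.mem_filter.2 ⟨Finset.mem_product.2 ⟨?_, ?_⟩, ?_⟩)
        · exact Finset.mem_union_right _ (Finset.mem_image_of_mem _ he'.2)
        · exact Finset.mem_union_left _ (Finset.mem_image_of_mem _ he'.1)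
        · change (TC e.2)⁻¹ * TB e.1 ∈ D
          rw [h2]
          exact Finset.mem_union_left _ (Finset.mem_image_of_mem _ hy)
      · intro e _ e' _ h
        simp only [Prod.mk.injEq] at h
        exact Prod.ext (hTBi h.2) (hTCi h.1)
    have h2 : (E.card : ℝ) ≤ (((Y ×ˢ Y).filter fun q => q.1⁻¹ * q.2 ∈ D).card : ℝ) := by
      exact_mod_cast h1
    refine le_trans ?_ (hE2.trans h2)
    have h3 : (Y.card : ℝ) ^ 2 ≤ (2 * n) ^ 2 := pow_le_pow_left₀ (Nat.cast_nonneg _) hYcard 2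
    nlinarith
  obtain ⟨V, hVY, hVcard, hVV⟩ := Pool.Agent.Lib.MP_8dbdcc_co.bsg Y D hDsym α hα0 hYne hpairs
  have hVn : α / 2 * n ≤ V.card := by
    refine le_trans ?_ hVcard
    exact mul_le_mul_of_nonneg_left hYn (by positivity)
  have hVV2 : ((V⁻¹ * V).card : ℝ) * α ^ 5 ≤ 65536 * n := by
    have h1 : ((V⁻¹ * V).card : ℝ) * (α ^ 5 * n ^ 3) ≤ 4096 * (2 * n) ^ 4 := by
      calc ((V⁻¹ * V).card : ℝ) * (α ^ 5 * n ^ 3)
          ≤ ((V⁻¹ * V).card : ℝ) * (α ^ 5 * (Y.card : ℝ) ^ 3) := by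
            have : n ^ 3 ≤ (Y.card : ℝ) ^ 3 := pow_le_pow_left₀ hn0.le hYn 3
            gcongr
        _ ≤ 4096 * (D.card : ℝ) ^ 4 := hVV
        _ ≤ 4096 * (2 * n) ^ 4 := by
            have : (D.card : ℝ) ^ 4 ≤ (2 * n) ^ 4 :=
              pow_le_pow_left₀ (Nat.cast_nonneg _) hDcard 4
            linarith
    have h2 : (((V⁻¹ * V).card : ℝ) * α ^ 5) * n ^ 3 ≤ (65536 * n) * n ^ 3 := by
      calc (((V⁻¹ * V).card : ℝ) * α ^ 5) * n ^ 3 = ((V⁻¹ * V).card : ℝ) * (α ^ 5 * n ^ 3) := by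
            ring
        _ ≤ 4096 * (2 * n) ^ 4 := h1
        _ = (65536 * n) * n ^ 3 := by ring
    exact le_of_mul_le_mul_right h2 (by positivity)
  -- the larger half
  have hfin : ∀ (F : ℝ × ℝ → Hg), (∀ p, Sim (F p).u (lf p)) → ∀ X ⊆ V, X ⊆ P.image F →
      V.card ≤ 2 * X.card → α / 4 * n ≤ ((8 * (2 * K ^ 2) ^ 16 * r) ^ ρ) ^ 2 := by
    intro F hF X hXV hXF hVX
    have hVX' : (V.card : ℝ) ≤ 2 * X.card := by exact_mod_cast hVX
    have hXn : α / 4 * n ≤ X.card := by linarith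
    have hX0 : (0 : ℝ) < X.card := lt_of_lt_of_le (by positivity) hXn
    have hXne : X.Nonempty := by
      rw [← Finset.card_pos]
      exact_mod_cast hX0
    have hXX : ((X⁻¹ * X).card : ℝ) ≤ K * X.card := by
      have h1 : ((X⁻¹ * X).card : ℝ) ≤ ((V⁻¹ * V).card : ℝ) := by
        exact_mod_cast Finset.card_le_card
          (Finset.mul_subset_mul (Finset.inv_subset_inv hXV) hXV)
      have h2 : ((X⁻¹ * X).card : ℝ) * α ^ 6 ≤ (K * X.card) * α ^ 6 := by
        calc ((X⁻¹ * X).card : ℝ) * α ^ 6 ≤ (((V⁻¹ * V).card : ℝ) * α ^ 5) * α := by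
              rw [mul_assoc, ← pow_succ]
              exact mul_le_mul_of_nonneg_right h1 (by positivity)
          _ ≤ (65536 * n) * α := mul_le_mul_of_nonneg_right hVV2 hα0.le
          _ = 2 ^ 18 * (α / 4 * n) := by ring
          _ ≤ 2 ^ 18 * X.card := mul_le_mul_of_nonneg_left hXn (by positivity)
          _ ≤ (K * α ^ 6) * X.card := mul_le_mul_of_nonneg_right hKα hX0.le
          _ = (K * X.card) * α ^ 6 := by ring
      exact le_of_mul_le_mul_right h2 (by positivity)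
    have h3 := half hAP P F hF X hXF hXne K r ρ hK1 hr hXX hρ hline
    have h4 : (Real.sqrt X.card) ^ 2 ≤ ((8 * (2 * K ^ 2) ^ 16 * r) ^ ρ) ^ 2 :=
      pow_le_pow_left₀ (Real.sqrt_nonneg _) h3 2
    rw [Real.sq_sqrt (Nat.cast_nonneg _)] at h4
    exact hXn.trans h4
  have hsplit : V.card ≤ (V.filter fun x => x ∈ P.image TB).card +
      (V.filter fun x => x ∈ P.image TC).card := by
    refine le_trans (Finset.card_le_card ?_) (Finset.card_union_le _ _)
    intro x hx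
    rcases Finset.mem_union.1 (hVY hx) with h | h
    · exact Finset.mem_union_left _ (Finset.mem_filter.2 ⟨hx, h⟩)
    · exact Finset.mem_union_right _ (Finset.mem_filter.2 ⟨hx, h⟩)
  rcases le_total (V.filter fun x => x ∈ P.image TB).card
    (V.filter fun x => x ∈ P.image TC).card with h | h
  · exact hfin TC (fun p => hwC p) (V.filter fun x => x ∈ P.image TC) (Finset.filter_subset _ _)
      (fun x hx => (Finset.mem_filter.1 hx).2) (by omega)
  · exact hfin TB (fun p => hvB p) (V.filter fun x => x ∈ P.image TB) (Finset.filter_subset _ _)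
      (fun x hx => (Finset.mem_filter.1 hx).2) (by omega)

end Pool.Agent.QQ95
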