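import Mathlib

/-!
# Counting lemmas: popular values, pairs with the same value
-/

set_option autoImplicit false

namespace Pool.Agent.QQ95

open Finset

/-- Restrict a set so that `val` becomes a function of `key`. -/
theorem pick {α κ β : Type*} [DecidableEq α] [DecidableEq κ] [DecidableEq β] (Θ : Finset α)
    (key : α → κ) (val : α → β) (k : ℕ)
    (h : ∀ θ ∈ Θ, ((Θ.filter fun t => key t = key θ).image val).card ≤ k) :
    ∃ Θ' ⊆ Θ, Θ.card ≤ k * Θ'.card ∧
      ∀ t ∈ Θ', ∀ t' ∈ Θ', key t = key t' → val t = val t' := by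
  classical
  rcases Θ.eq_empty_or_nonempty with rfl | ⟨θ0, hθ0⟩
  · exact ⟨∅, Finset.Subset.refl _, by simp, by simp⟩
  have hm : ∀ κ0 : κ, ∃ b : β, (Θ.filter fun t => key t = κ0).card ≤
      k * ((Θ.filter fun t => key t = κ0).filter fun t => val t = b).card := by
    intro κ0
    by_cases hne : ((Θ.filter fun t => key t = κ0)).Nonempty
    · obtain ⟨θ1, hθ1⟩ := hne
      have hθ1' := Finset.mem_filter.1 hθ1
      have hk := h θ1 hθ1'.1
      rw [hθ1'.2] at hk
      set F := Θ.filter fun t => key t = κ0 with hF
      have hIne : (F.image val).Nonempty := ⟨val θ1, Finset.mem_image_of_mem _ hθ1⟩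
      obtain ⟨b, hb, hmax⟩ := Finset.exists_max_image (F.image val)
        (fun b => (F.filter fun t => val t = b).card) hIne
      refine ⟨b, ?_⟩
      calc F.card = ∑ b' ∈ F.image val, (F.filter fun t => val t = b').card :=
            Finset.card_eq_sum_card_image val F
        _ ≤ ∑ b' ∈ F.image val, (F.filter fun t => val t = b).card :=
            Finset.sum_le_sum fun b' hb' => hmax b' hb'
        _ = (F.image val).card * (F.filter fun t => val t = b).card := by
            rw [Finset.sum_const, smul_eq_mul]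
        _ ≤ k * (F.filter fun t => val t = b).card := Nat.mul_le_mul_right _ hk
    · rw [Finset.not_nonempty_iff_eq_empty] at hne
      exact ⟨val θ0, by rw [hne]; simp⟩
  choose m hm using hm
  refine ⟨Θ.filter fun t => val t = m (key t), Finset.filter_subset _ _, ?_, ?_⟩
  · calc Θ.card = ∑ κ0 ∈ Θ.image key, (Θ.filter fun t => key t = κ0).card :=
          Finset.card_eq_sum_card_image key Θ
      _ ≤ ∑ κ0 ∈ Θ.image key,
          k * ((Θ.filter fun t => key t = κ0).filter fun t => val t = m κ0).card :=
          Finset.sum_le_sum fun κ0 _ => hm κ0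
      _ = k * ∑ κ0 ∈ Θ.image key,
          ((Θ.filter fun t => key t = κ0).filter fun t => val t = m κ0).card := by
          rw [Finset.mul_sum]
      _ = k * (Θ.filter fun t => val t = m (key t)).card := by
          congr 1
          rw [Finset.card_eq_sum_card_fiberwise (f := key) (t := Θ.image key)]
          · apply Finset.sum_congr rfl
            intro κ0 _
            congr 1
            ext t
            simp only [Finset.mem_filter]
            constructor
            · rintro ⟨⟨h1, h2⟩, h3⟩
              exact ⟨⟨h1, by rw [h2]; exact h3⟩, h2⟩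
            · rintro ⟨⟨h1, h2⟩, h3⟩
              exact ⟨⟨h1, h3⟩, by rw [← h3]; exact h2⟩
          · intro t ht
            exact Finset.mem_coe.2
              (Finset.mem_image_of_mem _ (Finset.mem_filter.1 (Finset.mem_coe.1 ht)).1)
  · intro t ht t' ht' hk
    rw [(Finset.mem_filter.1 ht).2, (Finset.mem_filter.1 ht').2, hk]

/-- Cauchy-Schwarz: pairs with the same value. -/
theorem cs_pairs {α β : Type*} [DecidableEq α] [DecidableEq β] (S : Finset α) (f : α → β)
    (B : Finset β) (hB : ∀ s ∈ S, f s ∈ B) :
    S.card ^ 2 ≤ B.card * ((S ×ˢ S).filter fun q => f q.1 = f q.2).card := by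
  have h1 : S.card = ∑ b ∈ B, (S.filter fun s => f s = b).card :=
    Finset.card_eq_sum_card_fiberwise (fun s hs => Finset.mem_coe.2 (hB s (Finset.mem_coe.1 hs)))
  have h2 : ((S ×ˢ S).filter fun q => f q.1 = f q.2).card =
      ∑ b ∈ B, (S.filter fun s => f s = b).card ^ 2 := by
    rw [Finset.card_eq_sum_card_fiberwise (f := fun q : α × α => f q.1) (t := B)]
    · apply Finset.sum_congr rfl
      intro b _
      rw [sq, ← Finset.card_product]
      congr 1
      ext q
      simp only [Finset.mem_filter, Finset.mem_product]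
      constructor
      · rintro ⟨⟨⟨h3, h4⟩, h5⟩, h6⟩
        exact ⟨⟨h3, h6⟩, h4, by rw [← h5]; exact h6⟩
      · rintro ⟨⟨h3, h4⟩, h5, h6⟩
        exact ⟨⟨⟨h3, h5⟩, by rw [h4, h6]⟩, h4⟩
    · intro q hq
      have hq' := Finset.mem_filter.1 (Finset.mem_coe.1 hq)
      exact Finset.mem_coe.2 (hB _ (Finset.mem_product.1 hq'.1).1)
  rw [h2]
  nth_rewrite 1 [h1]
  exact sq_sum_le_card_mul_sum_sq

/-- Pigeonhole: a popular value. -/
theorem pigeon {α β : Type*} [DecidableEq α] [DecidableEq β] (S : Finset α) (f : α → β)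
    (B : Finset β) (hB : ∀ s ∈ S, f s ∈ B) (hBne : B.Nonempty) :
    ∃ b ∈ B, S.card ≤ B.card * (S.filter fun s => f s = b).card := by
  obtain ⟨b, hb, hmax⟩ := Finset.exists_max_image B
    (fun b => (S.filter fun s => f s = b).card) hBne
  refine ⟨b, hb, ?_⟩
  calc S.card = ∑ b' ∈ B, (S.filter fun s => f s = b').card :=
        Finset.card_eq_sum_card_fiberwise
          (fun s hs => Finset.mem_coe.2 (hB s (Finset.mem_coe.1 hs)))
    _ ≤ ∑ b' ∈ B, (S.filter fun s => f s = b).card :=
        Finset.sum_le_sum fun b' hb' => hmax b' hb'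
    _ = B.card * (S.filter fun s => f s = b).card := by
        rw [Finset.sum_const, smul_eq_mul]

end Pool.Agent.QQ95
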