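import Pool.Agent.Lib.MP_95b053_co.Q.Pick

/-!
# Popular quotients of a set with few quotients
-/

set_option autoImplicit false

namespace Pool.Agent.QQ95

open Finset
open scoped Pointwise

/-- Number of pairs with the same value. -/
theorem card_same {α β : Type*} [DecidableEq α] [DecidableEq β] (S : Finset α) (f : α → β)
    (B : Finset β) (hB : ∀ s ∈ S, f s ∈ B) :
    ((S ×ˢ S).filter fun q => f q.1 = f q.2).card = ∑ b ∈ B, (S.filter fun s => f s = b).card ^ 2 := by
  rw [Finset.card_eq_sum_card_fiberwise (f := fun q : α × α => f q.1) (t := B)]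
  · apply Finset.sum_congr rfl
    intro b _
    rw [sq, ← Finset.card_product]
    congr 1
    ext q
    simp only [Finset.mem_filter, Finset.mem_product]
    constructor
    · rintro ⟨⟨⟨h3, h4⟩, h5⟩, h6⟩
      exact ⟨⟨h3, h6⟩, h4, by rw [← h5]; exact h6⟩
    · rintro ⟨⟨h3, h4⟩, h5, h6⟩
      exact ⟨⟨⟨h3, h5⟩, by rw [h4, h6]⟩, h4⟩
  · intro q hq
    have hq' := Finset.mem_filter.1 (Finset.mem_coe.1 hq)
    exact Finset.mem_coe.2 (hB _ (Finset.mem_product.1 hq'.1).1)

/-- If every element of `Z` has at least `t` representations in `A`, then `|Z| t ≤ |A|`. -/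
theorem fib_le {α β : Type*} [DecidableEq α] [DecidableEq β] (A : Finset α) (Z : Finset β)
    (f : α → β) (t : ℝ) (h : ∀ z ∈ Z, t ≤ ((A.filter fun a => f a = z).card : ℝ)) :
    (Z.card : ℝ) * t ≤ A.card := by
  calc (Z.card : ℝ) * t = ∑ z ∈ Z, t := by rw [Finset.sum_const, nsmul_eq_mul]
    _ ≤ ∑ z ∈ Z, ((A.filter fun a => f a = z).card : ℝ) := Finset.sum_le_sum h
    _ = ((∑ z ∈ Z, (A.filter fun a => f a = z).card : ℕ) : ℝ) := by push_cast; rfl
    _ ≤ (A.card : ℝ) := by
        have : ∑ z ∈ Z, (A.filter fun a => f a = z).card ≤ A.card := by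
          simp only [Finset.card_filter]
          rw [Finset.sum_comm]
          calc ∑ q ∈ A, ∑ u ∈ Z, (if f q = u then 1 else 0) ≤ ∑ q ∈ A, 1 := by
                apply Finset.sum_le_sum
                intro q _
                rw [Finset.sum_ite_eq]
                split_ifs <;> simp
            _ = A.card := by simp
        exact_mod_cast this

section

variable {G : Type*} [Group G] [DecidableEq G]

/-- the number of representations of `g` as a quotient `x x'⁻¹` -/
def rep (X : Finset G) (g : G) : ℕ := ((X ×ˢ X).filter fun q => q.1 * q.2⁻¹ = g).card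

theorem rep_le (X : Finset G) (g : G) : rep X g ≤ X.card := by
  unfold rep
  apply Finset.card_le_card_of_injOn (fun q : G × G => q.1)
  · intro q hq
    exact (Finset.mem_product.1 (Finset.mem_filter.1 (Finset.mem_coe.1 hq)).1).1
  · intro q hq q' hq' h
    have h1 := (Finset.mem_filter.1 (Finset.mem_coe.1 hq)).2
    have h2 := (Finset.mem_filter.1 (Finset.mem_coe.1 hq')).2
    simp only at h
    rw [← h2, h] at h1
    have := mul_left_cancel h1
    exact Prod.ext h (inv_injective this)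

theorem rep_inv (X : Finset G) (g : G) : rep X g⁻¹ = rep X g := by
  unfold rep
  apply Finset.card_nbij' (fun q : G × G => (q.2, q.1)) (fun q : G × G => (q.2, q.1))
  · intro q hq
    obtain ⟨h1, h2⟩ := Finset.mem_filter.1 (Finset.mem_coe.1 hq)
    obtain ⟨h3, h4⟩ := Finset.mem_product.1 h1
    refine Finset.mem_coe.2 (Finset.mem_filter.2 ⟨Finset.mem_product.2 ⟨h4, h3⟩, ?_⟩)
    simp only
    rw [← inv_inj, ← h2]
    group
  · intro q hq
    obtain ⟨h1, h2⟩ := Finset.mem_filter.1 (Finset.mem_coe.1 hq)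
    obtain ⟨h3, h4⟩ := Finset.mem_product.1 h1
    refine Finset.mem_coe.2 (Finset.mem_filter.2 ⟨Finset.mem_product.2 ⟨h4, h3⟩, ?_⟩)
    simp only
    rw [← h2]
    group
  · intro q _
    rfl
  · intro q _
    rfl

theorem rep_one (X : Finset G) : rep X 1 = X.card := by
  apply le_antisymm (rep_le X 1)
  unfold rep
  apply Finset.card_le_card_of_injOn (fun x : G => (x, x))
  · intro x hx
    refine Finset.mem_coe.2 (Finset.mem_filter.2
      ⟨Finset.mem_product.2 ⟨Finset.mem_coe.1 hx, Finset.mem_coe.1 hx⟩, ?_⟩)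
    simp
  · intro x _ y _ h
    exact (Prod.ext_iff.1 h).1

/-- The energy inequality. -/
theorem energy (X : Finset G) :
    X.card ^ 4 ≤ (X⁻¹ * X).card * ∑ g ∈ X * X⁻¹, rep X g ^ 2 := by
  have h1 := cs_pairs (X ×ˢ X) (fun p : G × G => p.1⁻¹ * p.2) (X⁻¹ * X) (by
    intro p hp
    obtain ⟨h3, h4⟩ := Finset.mem_product.1 hp
    exact Finset.mul_mem_mul (Finset.inv_mem_inv h3) h4)
  have h2 := card_same (X ×ˢ X) (fun p : G × G => p.1 * p.2⁻¹) (X * X⁻¹) (by
    intro p hp
    obtain ⟨h3, h4⟩ := Finset.mem_product.1 hp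
    exact Finset.mul_mem_mul h3 (Finset.inv_mem_inv h4))
  have h3 : (((X ×ˢ X) ×ˢ (X ×ˢ X)).filter
      fun q : (G × G) × (G × G) => q.1.1⁻¹ * q.1.2 = q.2.1⁻¹ * q.2.2).card ≤
      (((X ×ˢ X) ×ˢ (X ×ˢ X)).filter
        fun q : (G × G) × (G × G) => q.1.1 * q.1.2⁻¹ = q.2.1 * q.2.2⁻¹).card := by
    apply Finset.card_le_card_of_injOn
      (fun q : (G × G) × (G × G) => ((q.2.1, q.1.1), (q.2.2, q.1.2)))
    · rintro ⟨⟨a, b⟩, ⟨c, d⟩⟩ hq
      obtain ⟨h4, h5⟩ := Finset.mem_filter.1 (Finset.mem_coe.1 hq)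
      obtain ⟨h6, h7⟩ := Finset.mem_product.1 h4
      obtain ⟨h8, h9⟩ := Finset.mem_product.1 h6
      obtain ⟨h10, h11⟩ := Finset.mem_product.1 h7
      simp only at h5 h8 h9 h10 h11
      refine Finset.mem_coe.2 (Finset.mem_filter.2 ⟨Finset.mem_product.2
        ⟨Finset.mem_product.2 ⟨h10, h8⟩, Finset.mem_product.2 ⟨h11, h9⟩⟩, ?_⟩)
      simp only
      -- c a⁻¹ = d b⁻¹
      have : c * (a⁻¹ * b) = d := by rw [h5]; group
      rw [← this]
      group
    · rintro ⟨⟨a, b⟩, ⟨c, d⟩⟩ _ ⟨⟨a', b'⟩, ⟨c', d'⟩⟩ _ h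
      simp only [Prod.mk.injEq] at h ⊢
      tauto
  rw [Finset.card_product] at h1
  calc X.card ^ 4 = (X.card * X.card) ^ 2 := by ring
    _ ≤ (X⁻¹ * X).card * _ := h1
    _ ≤ (X⁻¹ * X).card * _ := Nat.mul_le_mul_left _ h3
    _ = _ := by rw [h2]; rfl

/-- **Popular quotients.** -/
theorem popq (X : Finset G) (K : ℝ) (hX : X.Nonempty)
    (hK : ((X⁻¹ * X).card : ℝ) ≤ K * X.card) :
    ∃ S : Finset G, (1 : G) ∈ S ∧ (∀ g ∈ S, g⁻¹ ∈ S) ∧ (X.card : ℝ) ≤ 2 * K * S.card ∧
      ∀ m : ℕ, ((S ^ m * X).card : ℝ) ≤ (2 * K ^ 2) ^ m * X.card := by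
  have hx0 : (0 : ℝ) < X.card := by exact_mod_cast hX.card_pos
  have hK1 : 1 ≤ K := by
    have h1 : X.card ≤ (X⁻¹ * X).card := Finset.card_le_card_mul_left hX.inv
    have h2 : (X.card : ℝ) ≤ K * X.card := le_trans (by exact_mod_cast h1) hK
    by_contra hlt
    push Not at hlt
    nlinarith
  have hK0 : 0 < K := by linarith
  set S := (X * X⁻¹).filter fun g => (X.card : ℝ) ≤ 2 * K * rep X g with hS
  have hrepS : ∀ s ∈ S, (X.card : ℝ) / (2 * K) ≤ rep X s := by
    intro s hs
    rw [div_le_iff₀ (by positivity)]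
    have := (Finset.mem_filter.1 hs).2
    linarith
  -- multiplication by S
  have hA : ∀ W : Finset G, ((S * W).card : ℝ) ≤ 2 * K * (X⁻¹ * W).card := by
    intro W
    have h1 := fib_le (X ×ˢ (X⁻¹ * W)) (S * W) (fun p : G × G => p.1 * p.2)
      ((X.card : ℝ) / (2 * K)) (by
        intro z hz
        obtain ⟨s, hs, w, hw, rfl⟩ := Finset.mem_mul.1 hz
        refine (hrepS s hs).trans ?_
        have : rep X s ≤ ((X ×ˢ (X⁻¹ * W)).filter
            fun p : G × G => p.1 * p.2 = s * w).card := by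
          unfold rep
          apply Finset.card_le_card_of_injOn (fun q : G × G => (q.1, q.2⁻¹ * w))
          · intro q hq
            obtain ⟨h4, h5⟩ := Finset.mem_filter.1 (Finset.mem_coe.1 hq)
            obtain ⟨h6, h7⟩ := Finset.mem_product.1 h4
            refine Finset.mem_coe.2 (Finset.mem_filter.2 ⟨Finset.mem_product.2
              ⟨h6, Finset.mul_mem_mul (Finset.inv_mem_inv h7) hw⟩, ?_⟩)
            simp only
            rw [← mul_assoc, h5]
          · intro q _ q' _ h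
            simp only [Prod.mk.injEq] at h
            exact Prod.ext h.1 (inv_injective (mul_right_cancel h.2))
        exact_mod_cast this)
    rw [Finset.card_product, Nat.cast_mul] at h1
    have h2 : ((S * W).card : ℝ) * X.card ≤ (X.card * ((X⁻¹ * W).card : ℝ)) * (2 * K) := by
      rw [← div_le_iff₀ (by positivity)]
      calc ((S * W).card : ℝ) * X.card / (2 * K) = ((S * W).card : ℝ) * (X.card / (2 * K)) := by
            ring
        _ ≤ _ := h1
    have h3 : ((S * W).card : ℝ) * X.card ≤ (2 * K * (X⁻¹ * W).card) * X.card := by linarith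
    exact le_of_mul_le_mul_right h3 hx0
  have hB : ∀ W : Finset G, ((X⁻¹ * (S * W)).card : ℝ) ≤ 2 * K ^ 2 * (X⁻¹ * W).card := by
    intro W
    have h1 := fib_le ((X⁻¹ * X) ×ˢ (X⁻¹ * W)) (X⁻¹ * (S * W)) (fun p : G × G => p.1 * p.2)
      ((X.card : ℝ) / (2 * K)) (by
        intro z hz
        obtain ⟨y, hy, z', hz', rfl⟩ := Finset.mem_mul.1 hz
        obtain ⟨s, hs, w, hw, rfl⟩ := Finset.mem_mul.1 hz'
        refine (hrepS s hs).trans ?_
        have : rep X s ≤ (((X⁻¹ * X) ×ˢ (X⁻¹ * W)).filter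
            fun p : G × G => p.1 * p.2 = y * (s * w)).card := by
          unfold rep
          apply Finset.card_le_card_of_injOn (fun q : G × G => (y * q.1, q.2⁻¹ * w))
          · intro q hq
            obtain ⟨h4, h5⟩ := Finset.mem_filter.1 (Finset.mem_coe.1 hq)
            obtain ⟨h6, h7⟩ := Finset.mem_product.1 h4
            refine Finset.mem_coe.2 (Finset.mem_filter.2 ⟨Finset.mem_product.2
              ⟨Finset.mul_mem_mul hy h6, Finset.mul_mem_mul (Finset.inv_mem_inv h7) hw⟩, ?_⟩)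
            simp only
            rw [← h5]
            group
          · intro q _ q' _ h
            simp only [Prod.mk.injEq] at h
            exact Prod.ext (mul_left_cancel h.1) (inv_injective (mul_right_cancel h.2))
        exact_mod_cast this)
    rw [Finset.card_product, Nat.cast_mul] at h1
    have h2 : ((X⁻¹ * (S * W)).card : ℝ) * X.card ≤
        (((X⁻¹ * X).card : ℝ) * ((X⁻¹ * W).card : ℝ)) * (2 * K) := by
      rw [← div_le_iff₀ (by positivity)]
      calc ((X⁻¹ * (S * W)).card : ℝ) * X.card / (2 * K) =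
          ((X⁻¹ * (S * W)).card : ℝ) * (X.card / (2 * K)) := by ring
        _ ≤ _ := h1
    have h3 : ((X⁻¹ * (S * W)).card : ℝ) * X.card ≤
        (2 * K ^ 2 * (X⁻¹ * W).card) * X.card := by
      calc ((X⁻¹ * (S * W)).card : ℝ) * X.card
          ≤ (((X⁻¹ * X).card : ℝ) * ((X⁻¹ * W).card : ℝ)) * (2 * K) := h2
        _ ≤ ((K * X.card) * ((X⁻¹ * W).card : ℝ)) * (2 * K) := by
            have : (0 : ℝ) ≤ ((X⁻¹ * W).card : ℝ) := Nat.cast_nonneg _
            gcongr
        _ = (2 * K ^ 2 * (X⁻¹ * W).card) * X.card := by ring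
    exact le_of_mul_le_mul_right h3 hx0
  have hC : ∀ m : ℕ, ((X⁻¹ * (S ^ m * X)).card : ℝ) ≤ (2 * K ^ 2) ^ m * (K * X.card) := by
    intro m
    induction m with
    | zero => simpa using hK
    | succ m ih =>
      rw [pow_succ', mul_assoc S]
      refine (hB _).trans ?_
      calc 2 * K ^ 2 * ((X⁻¹ * (S ^ m * X)).card : ℝ)
          ≤ 2 * K ^ 2 * ((2 * K ^ 2) ^ m * (K * X.card)) := by gcongr
        _ = (2 * K ^ 2) ^ (m + 1) * (K * X.card) := by ring
  refine ⟨S, ?_, ?_, ?_, ?_⟩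
  · obtain ⟨x, hx⟩ := hX
    refine Finset.mem_filter.2 ⟨Finset.mem_mul.2 ⟨x, hx, x⁻¹, Finset.inv_mem_inv hx,
      mul_inv_cancel x⟩, ?_⟩
    rw [rep_one]
    nlinarith
  · intro g hg
    obtain ⟨h1, h2⟩ := Finset.mem_filter.1 hg
    refine Finset.mem_filter.2 ⟨?_, by rw [rep_inv]; exact h2⟩
    obtain ⟨x, hx, y, hy, rfl⟩ := Finset.mem_mul.1 h1
    rw [mul_inv_rev]
    refine Finset.mul_mem_mul ?_ (Finset.inv_mem_inv hx)
    obtain ⟨z, hz, rfl⟩ := Finset.mem_inv.1 hy
    rwa [inv_inv]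
  · -- the size of S
    have h1 := energy X
    have h2 : ((∑ g ∈ X * X⁻¹, rep X g ^ 2 : ℕ) : ℝ) ≤
        S.card * (X.card : ℝ) ^ 2 + (X.card : ℝ) ^ 3 / (2 * K) := by
      push_cast
      have h3 : ∀ g ∈ X * X⁻¹, ((rep X g : ℝ)) ^ 2 ≤
          (if g ∈ S then (X.card : ℝ) ^ 2 else 0) + (rep X g : ℝ) * (X.card / (2 * K)) := by
        intro g hg
        have h4 : (rep X g : ℝ) ≤ X.card := by exact_mod_cast rep_le X g
        have h5 : (0 : ℝ) ≤ rep X g := Nat.cast_nonneg _
        by_cases hgS : g ∈ S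
        · rw [if_pos hgS]
          have h6 : (0 : ℝ) ≤ (rep X g : ℝ) * (X.card / (2 * K)) := by positivity
          nlinarith
        · rw [if_neg hgS, zero_add, sq]
          apply mul_le_mul_of_nonneg_left _ h5
          rw [le_div_iff₀ (by positivity)]
          by_contra hcon
          push Not at hcon
          apply hgS
          refine Finset.mem_filter.2 ⟨hg, ?_⟩
          linarith
      refine (Finset.sum_le_sum h3).trans ?_
      rw [Finset.sum_add_distrib, ← Finset.sum_mul]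
      have h7 : ∑ g ∈ X * X⁻¹, (if g ∈ S then (X.card : ℝ) ^ 2 else 0) ≤
          S.card * (X.card : ℝ) ^ 2 := by
        rw [← Finset.sum_filter, Finset.sum_const, nsmul_eq_mul]
        apply mul_le_mul_of_nonneg_right _ (by positivity)
        have : ((X * X⁻¹).filter fun g => g ∈ S).card ≤ S.card := by
          apply Finset.card_le_card
          intro g hg
          exact (Finset.mem_filter.1 hg).2
        exact_mod_cast this
      have h8 : ∑ g ∈ X * X⁻¹, (rep X g : ℝ) ≤ (X.card : ℝ) ^ 2 := by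
        have : ∑ g ∈ X * X⁻¹, rep X g = (X ×ˢ X).card := by
          symm
          apply Finset.card_eq_sum_card_fiberwise
          intro p hp
          obtain ⟨h3, h4⟩ := Finset.mem_product.1 (Finset.mem_coe.1 hp)
          exact Finset.mem_coe.2 (Finset.mul_mem_mul h3 (Finset.inv_mem_inv h4))
        rw [Finset.card_product] at this
        rw [sq]
        exact_mod_cast this.le
      have h9 : (∑ g ∈ X * X⁻¹, (rep X g : ℝ)) * (X.card / (2 * K)) ≤
          (X.card : ℝ) ^ 3 / (2 * K) := by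
        calc (∑ g ∈ X * X⁻¹, (rep X g : ℝ)) * (X.card / (2 * K))
            ≤ (X.card : ℝ) ^ 2 * (X.card / (2 * K)) :=
              mul_le_mul_of_nonneg_right h8 (by positivity)
          _ = (X.card : ℝ) ^ 3 / (2 * K) := by ring
      linarith
    have h3 : (X.card : ℝ) ^ 4 ≤ (K * X.card) *
        (S.card * (X.card : ℝ) ^ 2 + (X.card : ℝ) ^ 3 / (2 * K)) := by
      calc (X.card : ℝ) ^ 4 ≤ ((X⁻¹ * X).card : ℝ) * ((∑ g ∈ X * X⁻¹, rep X g ^ 2 : ℕ) : ℝ) := by
            exact_mod_cast h1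
        _ ≤ (K * X.card) * (S.card * (X.card : ℝ) ^ 2 + (X.card : ℝ) ^ 3 / (2 * K)) := by
            gcongr
    have h4 : (X.card : ℝ) ^ 4 ≤ K * S.card * (X.card : ℝ) ^ 3 + (X.card : ℝ) ^ 4 / 2 := by
      refine h3.trans (le_of_eq ?_)
      field_simp
    have h5 : (X.card : ℝ) * (X.card : ℝ) ^ 3 ≤ (2 * K * S.card) * (X.card : ℝ) ^ 3 := by
      nlinarith
    exact le_of_mul_le_mul_right h5 (by positivity)
  · intro m
    rcases m with _ | m
    · simp
    · rw [pow_succ', mul_assoc S]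
      refine (hA _).trans ?_
      calc 2 * K * ((X⁻¹ * (S ^ m * X)).card : ℝ)
          ≤ 2 * K * ((2 * K ^ 2) ^ m * (K * X.card)) := by
            have := hC m
            gcongr
        _ = (2 * K ^ 2) ^ (m + 1) * X.card := by ring

end

end Pool.Agent.QQ95
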